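import Mathlib

set_option autoImplicit false

open Function Finset

namespace H959.Wed

/-- the Cantor group -/
abbrev G := ℕ → ℤˣ

noncomputable section

def r (i : ℕ) (x : G) : ℝ := ((x i : ℤ) : ℝ)

def w (A : Finset ℕ) (x : G) : ℝ := ∏ i ∈ A, r i x

lemma r_mul_self (i : ℕ) (x : G) : r i x * r i x = 1 := by
  unfold r
  rcases Int.units_eq_one_or (x i) with h | h <;> simp [h]

lemma r_update_self (i : ℕ) (x : G) (t : ℤˣ) : r i (update x i t) = ((t : ℤ) : ℝ) := by
  simp [r]

lemma r_update_ne {i j : ℕ} (h : j ≠ i) (x : G) (t : ℤˣ) : r j (update x i t) = r j x := by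
  simp [r, update_of_ne h]

lemma abs_r (i : ℕ) (x : G) : |r i x| = 1 := by
  unfold r
  rcases Int.units_eq_one_or (x i) with h | h <;> simp [h]

lemma abs_w (A : Finset ℕ) (x : G) : |w A x| = 1 := by
  simp [w, Finset.abs_prod, abs_r]

lemma w_mul (A B : Finset ℕ) (x : G) : w A x * w B x = w (symmDiff A B) x := by
  classical
  have h1 : w A x = w (A \ B) x * w (A ∩ B) x := by
    unfold w
    rw [← Finset.prod_union (Finset.disjoint_sdiff_inter A B), Finset.sdiff_union_inter]
  have h2 : w B x = w (B \ A) x * w (A ∩ B) x := by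
    unfold w
    rw [Finset.inter_comm, ← Finset.prod_union (Finset.disjoint_sdiff_inter B A),
      Finset.sdiff_union_inter]
  have h3 : w (symmDiff A B) x = w (A \ B) x * w (B \ A) x := by
    unfold w
    rw [symmDiff_def, Finset.sup_eq_union, Finset.prod_union]
    exact disjoint_sdiff_sdiff
  have h4 : w (A ∩ B) x * w (A ∩ B) x = 1 := by
    unfold w
    rw [← Finset.prod_mul_distrib]
    exact Finset.prod_eq_one fun i _ => r_mul_self i x
  rw [h1, h2, h3]
  linear_combination (w (A \ B) x * w (B \ A) x) * h4

variable {E : Type*} [NormedAddCommGroup E] [NormedSpace ℝ E]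

def T (i : ℕ) (f : G → E) : G → E :=
  fun x => (1 / 2 : ℝ) • (f (update x i 1) + f (update x i (-1)))

def Tn (M : ℕ) : ℕ → (G → E) → (G → E)
  | 0, f => f
  | N + 1, f => Tn M N (T (M + N) f)

lemma Tn_zero (M : ℕ) (f : G → E) : Tn M 0 f = f := rfl
lemma Tn_succ (M N : ℕ) (f : G → E) : Tn M (N + 1) f = Tn M N (T (M + N) f) := rfl

lemma T_add (i : ℕ) (f g : G → E) : T i (f + g) = T i f + T i g := by
  funext x
  simp only [T, Pi.add_apply, ← smul_add]
  congr 1
  abel

lemma T_smul (i : ℕ) (c : ℝ) (f : G → E) : T i (c • f) = c • T i f := by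
  funext x
  simp only [T, Pi.smul_apply, ← smul_add, smul_comm c]

lemma Tn_add (M N : ℕ) (f g : G → E) : Tn M N (f + g) = Tn M N f + Tn M N g := by
  induction N generalizing f g with
  | zero => rfl
  | succ N ih => rw [Tn_succ, Tn_succ, Tn_succ, T_add, ih]

lemma Tn_smul (M N : ℕ) (c : ℝ) (f : G → E) : Tn M N (c • f) = c • Tn M N f := by
  induction N generalizing f with
  | zero => rfl
  | succ N ih => rw [Tn_succ, Tn_succ, T_smul, ih]

lemma T_zero (i : ℕ) : T i (0 : G → E) = 0 := by
  funext x; simp [T]

lemma Tn_zero_fun (M N : ℕ) : Tn M N (0 : G → E) = 0 := by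
  induction N with
  | zero => rfl
  | succ N ih => rw [Tn_succ, T_zero, ih]

lemma Tn_sum {ι : Type*} (s : Finset ι) (M N : ℕ) (f : ι → G → E) :
    Tn M N (∑ i ∈ s, f i) = ∑ i ∈ s, Tn M N (f i) := by
  classical
  induction s using Finset.induction_on with
  | empty => simp [Tn_zero_fun]
  | insert a s ha ih => rw [Finset.sum_insert ha, Finset.sum_insert ha, Tn_add, ih]

lemma T_mono (i : ℕ) {f g : G → ℝ} (h : ∀ x, f x ≤ g x) (x : G) : T i f x ≤ T i g x := by
  simp only [T, smul_eq_mul]
  have := h (update x i 1)
  have := h (update x i (-1))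
  linarith

lemma Tn_mono (M N : ℕ) {f g : G → ℝ} (h : ∀ x, f x ≤ g x) (x : G) : Tn M N f x ≤ Tn M N g x := by
  induction N generalizing f g with
  | zero => exact h x
  | succ N ih => exact ih fun y => T_mono _ h y

lemma norm_T_le (i : ℕ) (f : G → E) (x : G) : ‖T i f x‖ ≤ T i (fun y => ‖f y‖) x := by
  simp only [T, smul_eq_mul]
  rw [norm_smul]
  have := norm_add_le (f (update x i 1)) (f (update x i (-1)))
  simp only [one_div, norm_inv, Real.norm_ofNat]
  linarith

lemma norm_Tn_le (M N : ℕ) (f : G → E) (x : G) : ‖Tn M N f x‖ ≤ Tn M N (fun y => ‖f y‖) x := by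
  induction N generalizing f with
  | zero => exact le_refl _
  | succ N ih =>
    refine (ih _).trans ?_
    exact Tn_mono _ _ (fun y => norm_T_le _ _ _) x

lemma T_const (i : ℕ) (c : E) : T i (fun _ : G => c) = fun _ => c := by
  funext x
  simp only [T, ← two_smul ℝ c, smul_smul]
  norm_num

lemma Tn_const (M N : ℕ) (c : E) : Tn M N (fun _ : G => c) = fun _ => c := by
  induction N with
  | zero => rfl
  | succ N ih => rw [Tn_succ, T_const, ih]

lemma Tn_le_const (M N : ℕ) {f : G → ℝ} {c : ℝ} (h : ∀ x, f x ≤ c) (x : G) : Tn M N f x ≤ c := by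
  have := Tn_mono M N h x
  rwa [Tn_const] at this

/-- `f` does not depend on coordinate `i` -/
def Indep (i : ℕ) {α : Type*} (f : G → α) : Prop := ∀ x t, f (update x i t) = f x

lemma T_indep_smul {i : ℕ} {P : G → ℝ} (hP : Indep i P) (f : G → E) :
    T i (fun x => P x • f x) = fun x => P x • T i f x := by
  funext x
  simp only [T, hP x, ← smul_add, smul_comm (P x)]

lemma T_indep {i : ℕ} {f : G → E} (hf : Indep i f) : T i f = f := by
  funext x
  simp only [T, hf x, ← two_smul ℝ (f x), smul_smul]
  norm_num

lemma Tn_indep_smul {M N : ℕ} {P : G → ℝ} (hP : ∀ i, M ≤ i → i < M + N → Indep i P) (f : G → E) :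
    Tn M N (fun x => P x • f x) = fun x => P x • Tn M N f x := by
  induction N generalizing f with
  | zero => rfl
  | succ N ih =>
    rw [Tn_succ, T_indep_smul (hP _ (by omega) (by omega)), ih (fun i h1 h2 => hP i h1 (by omega))]
    rfl

lemma Tn_indep {M N : ℕ} {f : G → E} (hf : ∀ i, M ≤ i → i < M + N → Indep i f) : Tn M N f = f := by
  induction N with
  | zero => rfl
  | succ N ih =>
    rw [Tn_succ, T_indep (hf _ (by omega) (by omega)), ih (fun i h1 h2 => hf i h1 (by omega))]

lemma indep_T_self (i : ℕ) (f : G → E) : Indep i (T i f) := by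
  intro x t
  simp [T, update_idem]

lemma indep_T {i j : ℕ} {f : G → E} (hf : Indep j f) : Indep j (T i f) := by
  intro x t
  by_cases h : j = i
  · subst h; exact indep_T_self _ _ _ _
  · simp only [T]
    rw [update_comm h, update_comm h, hf, hf]

lemma indep_Tn_of {M N j : ℕ} {f : G → E} (hf : Indep j f) : Indep j (Tn M N f) := by
  induction N generalizing f with
  | zero => exact hf
  | succ N ih => exact ih (indep_T hf)

lemma indep_Tn {M N j : ℕ} (f : G → E) (h1 : M ≤ j) (h2 : j < M + N) : Indep j (Tn M N f) := by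
  induction N generalizing f with
  | zero => omega
  | succ N ih =>
    rcases Nat.lt_or_ge j (M + N) with h | h
    · exact ih _ h
    · have : j = M + N := by omega
      subst this
      rw [Tn_succ]
      exact indep_Tn_of (indep_T_self _ _)

lemma Tn_split (M N : ℕ) (f : G → E) : Tn 0 (M + N) f = Tn 0 M (Tn M N f) := by
  induction N generalizing f with
  | zero => rfl
  | succ N ih =>
    rw [← Nat.add_assoc, Tn_succ, ih, Tn_succ, Nat.zero_add]

/-- product formula -/
lemma Tn_prod (M N : ℕ) (g : ℕ → ℤˣ → ℝ) (x : G) :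
    Tn M N (fun y => ∏ i ∈ Finset.Ico M (M + N), g i (y i)) x =
      ∏ i ∈ Finset.Ico M (M + N), ((g i 1 + g i (-1)) / 2) := by
  induction N with
  | zero => simp [Tn_zero]
  | succ N ih =>
    rw [Tn_succ]
    have h1 : T (M + N) (fun y : G => ∏ i ∈ Finset.Ico M (M + (N + 1)), g i (y i)) =
        fun y => ((g (M + N) 1 + g (M + N) (-1)) / 2) •
          ∏ i ∈ Finset.Ico M (M + N), g i (y i) := by
      funext y
      have h2 : ∀ t : ℤˣ, ∏ i ∈ Finset.Ico M (M + (N + 1)), g i (update y (M + N) t i) =
          (∏ i ∈ Finset.Ico M (M + N), g i (y i)) * g (M + N) t := by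
        intro t
        rw [← Nat.add_assoc, Finset.prod_Ico_succ_top (by omega)]
        simp only [update_self]
        congr 1
        refine Finset.prod_congr rfl fun i hi => ?_
        rw [Finset.mem_Ico] at hi
        rw [update_of_ne (by omega)]
      simp only [T, h2, smul_eq_mul]
      ring
    rw [h1]
    have h3 := Tn_smul M N ((g (M + N) 1 + g (M + N) (-1)) / 2)
      (fun y : G => ∏ i ∈ Finset.Ico M (M + N), g i (y i))
    have h4 := congrFun h3 x
    simp only [Pi.smul_apply, smul_eq_mul] at h4
    rw [← Nat.add_assoc, Finset.prod_Ico_succ_top (by omega), ← ih]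
    rw [mul_comm, ← h4]
    rfl

/-- Averages over all of the block of a function depending only on the block are constant. -/
lemma Tn_eq_of_forall_indep {M N : ℕ} {f : G → E} (n : ℕ)
    (hf : ∀ i, i < M ∨ M + N ≤ i → Indep i f) (hf2 : ∀ x y : G, (∀ i, i < n → x i = y i) → f x = f y)
    (x y : G) : Tn M N f x = Tn M N f y := by
  have hi : ∀ i, Indep i (Tn M N f) := by
    intro i
    by_cases h : M ≤ i ∧ i < M + N
    · exact indep_Tn f h.1 h.2
    · exact indep_Tn_of (hf i (by omega))
  have hfin : ∀ x y : G, (∀ i, i < n → x i = y i) → Tn M N f x = Tn M N f y := by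
    clear hf hi x y
    induction N generalizing f with
    | zero => exact hf2
    | succ N ih =>
      apply ih
      intro x y hxy
      simp only [T]
      congr 2
      · apply hf2
        intro i hi
        by_cases h : i = M + N
        · subst h; simp
        · simp [update_of_ne h, hxy i hi]
      · apply hf2
        intro i hi
        by_cases h : i = M + N
        · subst h; simp
        · simp [update_of_ne h, hxy i hi]
  -- change coordinates < n one by one
  have key : ∀ m : ℕ, Tn M N f x = Tn M N f (fun i => if i < m then y i else x i) := by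
    intro m
    induction m with
    | zero => simp
    | succ m ih =>
      rw [ih]
      have : (fun i => if i < m + 1 then y i else x i) =
          update (fun i => if i < m then y i else x i) m (y m) := by
        funext i
        by_cases h : i = m
        · subst h; simp
        · rw [update_of_ne h]
          have : i < m + 1 ↔ i < m := by omega
          simp [this]
      rw [this, hi m]
  rw [key n]
  apply hfin
  intro i hi
  simp [hi]

end

end H959.Wed
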