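import Mathlib

set_option autoImplicit false

open Finset

namespace H959.Wed

def Mom (I : Set ℝ) (μ : ℕ → ℝ) : Prop :=
  ∃ (ι : Type) (_ : Fintype ι) (a s : ι → ℝ), (∀ j, s j ∈ I) ∧ ∀ k, μ k = ∑ j, a j * s j ^ k

lemma Mom.pow {I : Set ℝ} {r : ℝ} (hr : r ∈ I) : Mom I (fun k => r ^ k) :=
  ⟨Unit, inferInstance, fun _ => 1, fun _ => r, fun _ => hr, fun k => by simp⟩

lemma Mom.mono {I J : Set ℝ} (h : I ⊆ J) {μ : ℕ → ℝ} (hμ : Mom I μ) : Mom J μ := by
  obtain ⟨ι, _, a, s, h1, h2⟩ := hμ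
  exact ⟨ι, inferInstance, a, s, fun j => h (h1 j), h2⟩

lemma Mom.smul {I : Set ℝ} {μ : ℕ → ℝ} (c : ℝ) (hμ : Mom I μ) : Mom I (fun k => c * μ k) := by
  obtain ⟨ι, _, a, s, h1, h2⟩ := hμ
  refine ⟨ι, inferInstance, fun j => c * a j, s, h1, fun k => ?_⟩
  beta_reduce
  rw [h2, Finset.mul_sum]
  exact Finset.sum_congr rfl fun j _ => by ring

lemma Mom.add {I : Set ℝ} {μ ν : ℕ → ℝ} (hμ : Mom I μ) (hν : Mom I ν) :
    Mom I (fun k => μ k + ν k) := by
  obtain ⟨ι, _, a, s, h1, h2⟩ := hμ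
  obtain ⟨κ, _, b, t, h3, h4⟩ := hν
  refine ⟨ι ⊕ κ, inferInstance, Sum.elim a b, Sum.elim s t, ?_, fun k => ?_⟩
  · rintro (j | j)
    · exact h1 j
    · exact h3 j
  · simp [Fintype.sum_sum_type, h2, h4]

lemma Mom.dil {I J : Set ℝ} {μ : ℕ → ℝ} (q : ℝ) (h : ∀ s ∈ I, q * s ∈ J) (hμ : Mom I μ) :
    Mom J (fun k => q ^ k * μ k) := by
  obtain ⟨ι, _, a, s, h1, h2⟩ := hμ
  refine ⟨ι, inferInstance, a, fun j => q * s j, fun j => h _ (h1 j), fun k => ?_⟩
  beta_reduce
  rw [h2, Finset.mul_sum]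
  exact Finset.sum_congr rfl fun j _ => by rw [mul_pow]; ring

lemma mom_prod {q r : ℝ} (hq0 : 0 < q) (hq1 : q < 1) (hr : 0 < r) (K : ℕ) :
    Mom (Set.Icc (r * q ^ K) r)
      (fun k => r ^ k * ∏ m ∈ Finset.Icc 1 K, ((q ^ k - q ^ m) / (1 - q ^ m))) := by
  induction K with
  | zero => simpa using Mom.pow (I := Set.Icc r r) ⟨le_refl r, le_refl r⟩
  | succ K ih =>
    have h1 := Mom.dil (J := Set.Icc (r * q ^ (K + 1)) r) q (by
      rintro s ⟨hs1, hs2⟩
      constructor
      · calc r * q ^ (K + 1) = q * (r * q ^ K) := by ring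
          _ ≤ q * s := by gcongr
      · calc q * s ≤ 1 * r := by
              apply mul_le_mul hq1.le hs2 _ zero_le_one
              exact (by positivity : (0:ℝ) ≤ r * q ^ K).trans hs1
          _ = r := one_mul r) ih
    have h2 := Mom.mono (J := Set.Icc (r * q ^ (K + 1)) r) (by
      apply Set.Icc_subset_Icc_left
      have : q ^ (K + 1) ≤ q ^ K := pow_le_pow_of_le_one hq0.le hq1.le (by omega)
      gcongr) ih
    have h3 := Mom.smul (1 / (1 - q ^ (K + 1))) (Mom.add h1 (Mom.smul (-(q ^ (K + 1))) h2))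
    have h4 : (fun k => r ^ k * ∏ m ∈ Finset.Icc 1 (K + 1), ((q ^ k - q ^ m) / (1 - q ^ m))) =
        fun k => 1 / (1 - q ^ (K + 1)) * (q ^ k * (r ^ k *
          ∏ m ∈ Finset.Icc 1 K, ((q ^ k - q ^ m) / (1 - q ^ m))) + -(q ^ (K + 1)) * (r ^ k *
          ∏ m ∈ Finset.Icc 1 K, ((q ^ k - q ^ m) / (1 - q ^ m)))) := by
      funext k
      rw [Finset.prod_Icc_succ_top (by omega)]
      ring
    rw [h4]
    exact h3

lemma prod_Icc_cast (K : ℕ) : ∏ m ∈ Finset.Icc 1 K, (m : ℝ) = (K.factorial : ℝ) := by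
  induction K with
  | zero => simp
  | succ K ih =>
    rw [Finset.prod_Icc_succ_top (by omega), ih, Nat.factorial_succ]
    push_cast
    ring

lemma exists_mom (ε : ℝ) (hε : 0 < ε) :
    ∃ (ι : Type) (_ : Fintype ι) (a s : ι → ℝ), (∀ j, s j ∈ Set.Icc (1 / 48 : ℝ) (1 / 24)) ∧
      ∑ j, a j = 1 ∧ ∀ k, 1 ≤ k → |∑ j, a j * s j ^ k| ≤ ε := by
  obtain ⟨K0, hK0⟩ := exists_pow_lt_of_lt_one hε (by norm_num : (1 / 2 : ℝ) < 1)
  set K := K0 + 1 with hK
  have hK1 : 1 ≤ K := by omega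
  have hKr : (1 : ℝ) ≤ K := by exact_mod_cast hK1
  have hKε : (1 / 2 : ℝ) ^ K < ε :=
    (pow_le_pow_of_le_one (by norm_num) (by norm_num) (by omega)).trans_lt hK0
  set q : ℝ := 1 - 1 / (2 * K) with hq
  have h2K : (1 : ℝ) / (2 * K) ≤ 1 / 2 := by
    rw [div_le_div_iff₀ (by positivity) (by norm_num)]; linarith
  have h2K' : (0 : ℝ) < 1 / (2 * K) := by positivity
  have hq0 : 0 < q := by rw [hq]; linarith
  have hq1 : q < 1 := by rw [hq]; linarith
  have hqK : 1 / 2 ≤ q ^ K := by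
    have := one_add_mul_le_pow (a := -(1 / (2 * K : ℝ))) (by linarith) K
    have e : 1 + (K : ℝ) * -(1 / (2 * K : ℝ)) = 1 / 2 := by field_simp; norm_num
    rw [e] at this
    have e2 : 1 + -(1 / (2 * K : ℝ)) = q := by rw [hq]; ring
    rwa [e2] at this
  obtain ⟨ι, _, a, s, h1, h2⟩ := mom_prod hq0 hq1 (by norm_num : (0 : ℝ) < 1 / 24) K
  refine ⟨ι, inferInstance, a, s, fun j => ?_, ?_, fun k hk => ?_⟩
  · refine ⟨le_trans ?_ (h1 j).1, (h1 j).2⟩
    linarith
  · have := h2 0
    simp only [pow_zero, one_mul, mul_one] at this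
    rw [← this]
    refine Finset.prod_eq_one fun m hm => ?_
    rw [Finset.mem_Icc] at hm
    have : q ^ m < 1 := pow_lt_one₀ hq0.le hq1 (by omega)
    exact div_self (by linarith)
  · rw [← h2 k]
    beta_reduce
    by_cases hkK : k ≤ K
    · rw [Finset.prod_eq_zero (i := k) (by simp; omega) (by simp)]
      simp [hε.le]
    · push Not at hkK
      rw [abs_mul, abs_of_pos (by positivity : (0 : ℝ) < (1 / 24) ^ k), Finset.abs_prod]
      have hfac : ∀ m ∈ Finset.Icc 1 K, |(q ^ k - q ^ m) / (1 - q ^ m)| ≤ 4 * K / m := by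
        intro m hm
        rw [Finset.mem_Icc] at hm
        have hm1 : (1 : ℝ) ≤ m := by exact_mod_cast hm.1
        have hqm1 : q ^ m < 1 := pow_lt_one₀ hq0.le hq1 (by omega)
        have hden : (m : ℝ) / (4 * K) ≤ 1 - q ^ m := by
          have hg : 1 - q ^ m = (1 - q) * ∑ i ∈ Finset.range m, q ^ i := by
            have := mul_neg_geom_sum q m
            linarith
          rw [hg]
          have hs : (m : ℝ) * (1 / 2) ≤ ∑ i ∈ Finset.range m, q ^ i := by
            have : ∑ i ∈ Finset.range m, (1 / 2 : ℝ) ≤ ∑ i ∈ Finset.range m, q ^ i := by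
              refine Finset.sum_le_sum fun i hi => ?_
              rw [Finset.mem_range] at hi
              exact hqK.trans (pow_le_pow_of_le_one hq0.le hq1.le (by omega))
            simpa using this
          have e : (m : ℝ) / (4 * K) = (1 - q) * (m * (1 / 2)) := by
            rw [hq]; field_simp; ring
          rw [e]
          exact mul_le_mul_of_nonneg_left hs (by linarith)
        rw [abs_div, abs_of_pos (by linarith : 0 < 1 - q ^ m)]
        have hnum : |q ^ k - q ^ m| ≤ 1 := by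
          rw [abs_le]
          have : 0 < q ^ k := by positivity
          have : q ^ k ≤ 1 := pow_le_one₀ hq0.le hq1.le
          have : 0 < q ^ m := by positivity
          constructor <;> linarith
        calc |q ^ k - q ^ m| / (1 - q ^ m) ≤ 1 / (m / (4 * K)) := by
              apply div_le_div₀ zero_le_one hnum (by positivity) hden
          _ = 4 * K / m := by rw [one_div_div]
      have hprod : ∏ m ∈ Finset.Icc 1 K, |(q ^ k - q ^ m) / (1 - q ^ m)| ≤ 12 ^ K := by
        calc ∏ m ∈ Finset.Icc 1 K, |(q ^ k - q ^ m) / (1 - q ^ m)|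
            ≤ ∏ m ∈ Finset.Icc 1 K, (4 * (K : ℝ) / m) :=
              Finset.prod_le_prod (fun _ _ => abs_nonneg _) hfac
          _ = (4 * K) ^ K / (K.factorial : ℝ) := by
              rw [Finset.prod_div_distrib, Finset.prod_const, Nat.card_Icc, Nat.add_sub_cancel,
                prod_Icc_cast]
          _ = 4 ^ K * ((K : ℝ) ^ K / K.factorial) := by rw [mul_pow]; ring
          _ ≤ 4 ^ K * 3 ^ K := by
              gcongr
              refine (Real.pow_div_factorial_le_exp K (by positivity) K).trans ?_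
              have e1 : Real.exp K = Real.exp 1 ^ K := by
                rw [← Real.exp_nat_mul]; simp
              rw [e1]
              gcongr
              have := Real.exp_one_lt_d9
              linarith
          _ = 12 ^ K := by rw [← mul_pow]; norm_num
      calc (1 / 24 : ℝ) ^ k * ∏ m ∈ Finset.Icc 1 K, |(q ^ k - q ^ m) / (1 - q ^ m)|
          ≤ (1 / 24 : ℝ) ^ K * 12 ^ K := by
            apply mul_le_mul _ hprod (Finset.prod_nonneg fun _ _ => abs_nonneg _) (by positivity)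
            exact pow_le_pow_of_le_one (by norm_num) (by norm_num) hkK.le
        _ = (1 / 2) ^ K := by rw [← mul_pow]; norm_num
        _ ≤ ε := hKε.le

end H959.Wed
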