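import Pool.Agent.H959R2.Wed.Avg
import Pool.Agent.H959R2.Wed.Moments

set_option autoImplicit false

open Function Finset

namespace H959.Wed

noncomputable section

/-- `f` depends only on the coordinates `< n` -/
def Dep (n : ℕ) {α : Type*} (f : G → α) : Prop := ∀ x y : G, (∀ i, i < n → x i = y i) → f x = f y

lemma Dep.indep {n i : ℕ} {α : Type*} {f : G → α} (hf : Dep n f) (h : n ≤ i) : Indep i f := by
  intro x t
  apply hf
  intro j hj
  rw [update_of_ne (by omega)]

lemma Dep.mono {m n : ℕ} {α : Type*} {f : G → α} (hf : Dep m f) (h : m ≤ n) : Dep n f :=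
  fun x y hxy => hf x y fun i hi => hxy i (by omega)

lemma Dep.finite_range {n : ℕ} {α : Type*} {f : G → α} (hf : Dep n f) : (Set.range f).Finite := by
  classical
  let e : (Fin n → ℤˣ) → G := fun y i => if h : i < n then y ⟨i, h⟩ else 1
  have : Set.range f ⊆ Set.range (f ∘ e) := by
    rintro _ ⟨x, rfl⟩
    refine ⟨fun i => x i, ?_⟩
    apply hf
    intro i hi
    simp [e, hi]
  exact (Set.finite_range _).subset this

lemma Dep.bounded {n : ℕ} {f : G → ℝ} (hf : Dep n f) : ∃ C, 0 ≤ C ∧ ∀ x, |f x| ≤ C := by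
  have h := (hf.finite_range.image (fun t : ℝ => |t|)).bddAbove
  obtain ⟨C, hC⟩ := h
  refine ⟨|C|, abs_nonneg _, fun x => (hC ?_).trans (le_abs_self _)⟩
  exact ⟨f x, ⟨x, rfl⟩, rfl⟩

/-- block average -/
def F (M N : ℕ) (x : G) : ℝ := (1 / N : ℝ) * ∑ i ∈ Finset.Ico M (M + N), r i x

def R (s : ℝ) (M N : ℕ) (x : G) : ℝ := ∏ i ∈ Finset.Ico M (M + N), (1 + s * r i x)

lemma R_nonneg {s : ℝ} (hs : |s| ≤ 1) (M N : ℕ) (x : G) : 0 ≤ R s M N x := by
  apply Finset.prod_nonneg
  intro i _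
  have h : |s * r i x| ≤ 1 := by rw [abs_mul, abs_r, mul_one]; exact hs
  have := (abs_le.1 h).1
  linarith

lemma F_indep {M N i : ℕ} (h : i < M ∨ M + N ≤ i) : Indep i (F M N) := by
  intro x t
  unfold F
  congr 1
  refine Finset.sum_congr rfl fun j hj => ?_
  rw [Finset.mem_Ico] at hj
  exact r_update_ne (by omega) x t

lemma R_indep {s : ℝ} {M N i : ℕ} (h : i < M ∨ M + N ≤ i) : Indep i (R s M N) := by
  intro x t
  unfold R
  refine Finset.prod_congr rfl fun j hj => ?_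
  rw [Finset.mem_Ico] at hj
  rw [r_update_ne (by omega) x t]

lemma F_dep (M N : ℕ) : Dep (M + N) (F M N) := by
  intro x y hxy
  unfold F
  congr 1
  refine Finset.sum_congr rfl fun j hj => ?_
  rw [Finset.mem_Ico] at hj
  unfold r
  rw [hxy j (by omega)]

lemma R_dep (s : ℝ) (M N : ℕ) : Dep (M + N) (R s M N) := by
  intro x y hxy
  unfold R
  refine Finset.prod_congr rfl fun j hj => ?_
  rw [Finset.mem_Ico] at hj
  unfold r
  rw [hxy j (by omega)]

lemma Tn_R_w (s : ℝ) (M N : ℕ) {S : Finset ℕ} (hS : S ⊆ Finset.Ico M (M + N)) (x : G) :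
    Tn M N (fun y => R s M N y * w S y) x = s ^ S.card := by
  classical
  obtain ⟨g, hg⟩ : ∃ g : ℕ → ℤˣ → ℝ, g = fun (i : ℕ) (t : ℤˣ) =>
    (1 + s * ((t : ℤ) : ℝ)) * (if i ∈ S then ((t : ℤ) : ℝ) else 1) := ⟨_, rfl⟩
  have h1 : (fun y : G => R s M N y * w S y) = fun y => ∏ i ∈ Finset.Ico M (M + N), g i (y i) := by
    funext y
    rw [hg, Finset.prod_mul_distrib]
    congr 1
    unfold w
    rw [← Finset.prod_filter]
    refine Finset.prod_congr ?_ fun _ _ => rfl
    ext i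
    simp only [Finset.mem_filter]
    exact ⟨fun h => ⟨hS h, h⟩, fun h => h.2⟩
  rw [h1, Tn_prod M N g x]
  have h2 : ∀ i ∈ Finset.Ico M (M + N), (g i 1 + g i (-1)) / 2 = if i ∈ S then s else 1 := by
    intro i _
    by_cases h : i ∈ S
    · simp [hg, h]; ring
    · simp [hg, h]; ring
  rw [Finset.prod_congr rfl h2, ← Finset.prod_filter, Finset.prod_const]
  congr 2
  ext i
  simp only [Finset.mem_filter]
  exact ⟨fun h => h.2, fun h => ⟨hS h, h⟩⟩

lemma Tn_R_cov (s : ℝ) (M N : ℕ) {i j : ℕ} (hi : i ∈ Finset.Ico M (M + N))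
    (hj : j ∈ Finset.Ico M (M + N)) (x : G) :
    Tn M N (fun y => R s M N y * ((r i y - s) * (r j y - s))) x ≤ if i = j then 1 else 0 := by
  classical
  obtain ⟨g, hg⟩ : ∃ g : ℕ → ℤˣ → ℝ, g = fun (l : ℕ) (t : ℤˣ) =>
    (1 + s * ((t : ℤ) : ℝ)) * ((if l = i then ((t : ℤ) : ℝ) - s else 1) *
        (if l = j then ((t : ℤ) : ℝ) - s else 1)) := ⟨_, rfl⟩
  have h1 : (fun y : G => R s M N y * ((r i y - s) * (r j y - s))) =
      fun y => ∏ l ∈ Finset.Ico M (M + N), g l (y l) := by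
    funext y
    rw [hg, Finset.prod_mul_distrib, Finset.prod_mul_distrib]
    congr 1
    rw [Finset.prod_ite_eq' _ _ (fun l => ((y l : ℤ) : ℝ) - s), if_pos hi,
      Finset.prod_ite_eq' _ _ (fun l => ((y l : ℤ) : ℝ) - s), if_pos hj]
    rfl
  rw [h1, Tn_prod M N g x]
  by_cases hij : i = j
  · subst hij
    rw [if_pos rfl]
    rw [Finset.prod_eq_single_of_mem i hi]
    · simp only [hg, if_true]
      push_cast
      nlinarith [sq_nonneg s]
    · intro l _ hl
      simp [hg, hl]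
      ring
  · rw [if_neg hij, Finset.prod_eq_zero hi]
    simp [hg, hij]
    ring

lemma Tn_R_var (s : ℝ) (M N : ℕ) (hN : 0 < N) (x : G) :
    Tn M N (fun y => R s M N y * (F M N y - s) ^ 2) x ≤ 1 / N := by
  classical
  have hN' : (0 : ℝ) < N := by exact_mod_cast hN
  have h1 : (fun y : G => R s M N y * (F M N y - s) ^ 2) =
      (1 / N ^ 2 : ℝ) • ∑ i ∈ Finset.Ico M (M + N), ∑ j ∈ Finset.Ico M (M + N),
        (fun y : G => R s M N y * ((r i y - s) * (r j y - s))) := by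
    funext y
    simp only [Pi.smul_apply, Finset.sum_apply, smul_eq_mul]
    simp only [← Finset.mul_sum]
    rw [← Finset.sum_mul]
    have h2 : ∑ i ∈ Finset.Ico M (M + N), (r i y - s) = N * (F M N y - s) := by
      rw [Finset.sum_sub_distrib]
      unfold F
      simp
      field_simp
    rw [h2]
    field_simp
  rw [h1, Tn_smul, Tn_sum]
  simp only [Tn_sum, Pi.smul_apply, Finset.sum_apply, smul_eq_mul]
  have h3 : ∑ i ∈ Finset.Ico M (M + N), ∑ j ∈ Finset.Ico M (M + N),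
      Tn M N (fun y : G => R s M N y * ((r i y - s) * (r j y - s))) x ≤
      ∑ i ∈ Finset.Ico M (M + N), ∑ j ∈ Finset.Ico M (M + N), if i = j then (1 : ℝ) else 0 :=
    Finset.sum_le_sum fun i hi => Finset.sum_le_sum fun j hj => Tn_R_cov s M N hi hj x
  have h4 : ∑ i ∈ Finset.Ico M (M + N), ∑ j ∈ Finset.Ico M (M + N), (if i = j then (1 : ℝ) else 0)
      = N := by
    have : ∀ i ∈ Finset.Ico M (M + N), ∑ j ∈ Finset.Ico M (M + N), (if i = j then (1 : ℝ) else 0)
        = 1 := by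
      intro i hi
      rw [Finset.sum_ite_eq, if_pos hi]
    rw [Finset.sum_congr rfl this]
    simp
  rw [h4] at h3
  have h5 : (1 : ℝ) / N = 1 / (N : ℝ) ^ 2 * N := by field_simp
  rw [h5]
  exact mul_le_mul_of_nonneg_left h3 (by positivity)

end

end H959.Wed
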