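import Pool.Agent.H959R2.Wed.Block

set_option autoImplicit false

open Function Finset

namespace H959.Wed

noncomputable section

lemma Dep.const {n : ℕ} {α : Type*} (c : α) : Dep n (fun _ : G => c) := fun _ _ _ => rfl

lemma w_dep {A : Finset ℕ} {n : ℕ} (h : ∀ i ∈ A, i < n) : Dep n (w A) := by
  intro x y hxy
  unfold w r
  exact Finset.prod_congr rfl fun i hi => by rw [hxy i (h i hi)]

lemma w_indep {A : Finset ℕ} {i : ℕ} (h : i ∉ A) : Indep i (w A) := by
  intro x t
  unfold w
  refine Finset.prod_congr rfl fun j hj => ?_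
  exact r_update_ne (by rintro rfl; exact h hj) x t

lemma block (ε : ℝ) (hε : 0 < ε) : ∃ N0 : ℕ, 0 < N0 ∧ ∀ N, N0 ≤ N → ∀ M, ∀ τ : ℝ,
    (τ = 1 ∨ τ = -1) → ∃ h : G → ℝ, Dep (M + N) h ∧ (∀ i, i < M → Indep i h) ∧
      (∀ x, h x ≠ 0 → |32 * F M N x - τ| ≤ 1 / 2) ∧ (∀ x, Tn M N h x = 1) ∧
      ∀ S ⊆ Finset.Ico M (M + N), S.Nonempty → ∀ x,
        |Tn M N (fun y => h y * w S y) x| ≤ ε := by
  classical
  obtain ⟨ι, _, a, s, hs, ha1, hak⟩ := exists_mom (ε / 8) (by positivity)
  set A := ∑ j, |a j| with hA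
  have hA0 : 0 ≤ A := Finset.sum_nonneg fun _ _ => abs_nonneg _
  obtain ⟨N0, hN0⟩ := exists_nat_gt (A * 36864 * (2 + 8 / ε))
  refine ⟨N0 + 1, Nat.succ_pos _, fun N hN M τ hτ => ?_⟩
  have hNpos : 0 < N := by omega
  have hNR : (0 : ℝ) < N := by exact_mod_cast hNpos
  have hNN0 : (N0 : ℝ) ≤ N := by exact_mod_cast (by omega : N0 ≤ N)
  have hbig : A * 36864 * (2 + 8 / ε) < N := lt_of_lt_of_le hN0 hNN0
  set δ := A * 36864 / N with hδ
  have hδ0 : 0 ≤ δ := by positivity
  have h8 : 0 < 8 / ε := by positivity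
  have hδ1 : δ ≤ 1 / 2 := by
    rw [hδ, div_le_iff₀ hNR]
    nlinarith [mul_nonneg (mul_nonneg hA0 (by norm_num : (0:ℝ) ≤ 36864)) h8.le]
  have hδ2 : δ ≤ ε / 8 := by
    rw [hδ, div_le_iff₀ hNR]
    have h1 : A * 36864 * (8 / ε) ≤ N := by
      nlinarith [mul_nonneg hA0 (by norm_num : (0:ℝ) ≤ 36864)]
    calc A * 36864 = ε / 8 * (A * 36864 * (8 / ε)) := by field_simp
      _ ≤ ε / 8 * N := by gcongr
  have hτ1 : |τ| = 1 := by rcases hτ with rfl | rfl <;> simp
  have hτs : ∀ j, |τ * s j| ≤ 1 := by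
    intro j
    rw [abs_mul, hτ1, one_mul, abs_of_nonneg (le_trans (by norm_num) (hs j).1)]
    exact (hs j).2.trans (by norm_num)
  set H0 : G → ℝ := fun y => ∑ j, a j * R (τ * s j) M N y with hH0
  set χ : G → ℝ := fun y => if |32 * F M N y - τ| ≤ 1 / 2 then 1 else 0 with hχ
  set H : G → ℝ := fun y => χ y * H0 y with hH
  have hH0w : ∀ S ⊆ Finset.Ico M (M + N), ∀ x,
      Tn M N (fun y => H0 y * w S y) x = ∑ j, a j * (τ * s j) ^ S.card := by
    intro S hS x
    have : (fun y => H0 y * w S y) = ∑ j, a j • fun y : G => R (τ * s j) M N y * w S y := by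
      funext y
      simp only [Finset.sum_apply, Pi.smul_apply, smul_eq_mul, hH0, Finset.sum_mul]
      exact Finset.sum_congr rfl fun j _ => by ring
    rw [this, Tn_sum, Finset.sum_apply]
    refine Finset.sum_congr rfl fun j _ => ?_
    rw [Tn_smul, Pi.smul_apply, Tn_R_w _ _ _ hS, smul_eq_mul]
  have htail : ∀ S : Finset ℕ, ∀ x, |Tn M N (fun y => (1 - χ y) * H0 y * w S y) x| ≤ δ := by
    intro S x
    have h1 := norm_Tn_le M N (fun y => (1 - χ y) * H0 y * w S y) x
    rw [Real.norm_eq_abs] at h1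
    refine h1.trans ?_
    have h2 : ∀ y, ‖(1 - χ y) * H0 y * w S y‖ ≤
        (∑ j, (|a j| * 36864) • fun y : G => R (τ * s j) M N y * (F M N y - τ * s j) ^ 2) y := by
      intro y
      simp only [Finset.sum_apply, Pi.smul_apply, smul_eq_mul]
      rw [Real.norm_eq_abs, abs_mul, abs_w, mul_one, abs_mul]
      by_cases hc : |32 * F M N y - τ| ≤ 1 / 2
      · have : χ y = 1 := by simp only [hχ, if_pos hc]
        rw [this, sub_self, abs_zero, zero_mul]
        refine Finset.sum_nonneg fun j _ => ?_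
        have := R_nonneg (hτs j) M N y
        positivity
      · have : χ y = 0 := by simp only [hχ, if_neg hc]
        rw [this, sub_zero, abs_one, one_mul]
        refine (Finset.abs_sum_le_sum_abs _ _).trans (Finset.sum_le_sum fun j _ => ?_)
        have hR := R_nonneg (hτs j) M N y
        rw [abs_mul, abs_of_nonneg hR]
        push Not at hc
        have h3 : 1 ≤ 36864 * (F M N y - τ * s j) ^ 2 := by
          have h4 : |τ - 32 * (τ * s j)| ≤ 1 / 3 := by
            have : τ - 32 * (τ * s j) = τ * (1 - 32 * s j) := by ring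
            rw [this, abs_mul, hτ1, one_mul, abs_le]
            have := (hs j).1
            have := (hs j).2
            constructor <;> linarith
          have h5 : 1 / 6 ≤ |32 * (F M N y - τ * s j)| := by
            have h6 : 32 * F M N y - τ = 32 * (F M N y - τ * s j) + (-(τ - 32 * (τ * s j))) := by
              ring
            have h7 := abs_add_le (32 * (F M N y - τ * s j)) (-(τ - 32 * (τ * s j)))
            rw [← h6, abs_neg] at h7
            linarith
          have h8 : (1 / 6) ^ 2 ≤ |32 * (F M N y - τ * s j)| ^ 2 := by gcongr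
          rw [sq_abs] at h8
          nlinarith
        calc |a j| * R (τ * s j) M N y = |a j| * R (τ * s j) M N y * 1 := by ring
          _ ≤ |a j| * R (τ * s j) M N y * (36864 * (F M N y - τ * s j) ^ 2) := by gcongr
          _ = _ := by ring
    refine (Tn_mono M N h2 x).trans ?_
    rw [Tn_sum, Finset.sum_apply]
    calc ∑ j, Tn M N ((|a j| * 36864) •
          fun y : G => R (τ * s j) M N y * (F M N y - τ * s j) ^ 2) x
        ≤ ∑ j, |a j| * 36864 * (1 / N) := by
          refine Finset.sum_le_sum fun j _ => ?_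
          rw [Tn_smul, Pi.smul_apply, smul_eq_mul]
          exact mul_le_mul_of_nonneg_left (Tn_R_var _ M N hNpos x) (by positivity)
      _ = δ := by
          rw [← Finset.sum_mul, ← Finset.sum_mul, hδ, hA]; ring
  have hHw : ∀ S ⊆ Finset.Ico M (M + N), ∀ x,
      |Tn M N (fun y => H y * w S y) x - ∑ j, a j * (τ * s j) ^ S.card| ≤ δ := by
    intro S hS x
    have : (fun y => H0 y * w S y) =
        (fun y => H y * w S y) + (fun y => (1 - χ y) * H0 y * w S y) := by
      funext y
      simp only [Pi.add_apply, hH]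
      ring
    have h1 := hH0w S hS x
    rw [this, Tn_add, Pi.add_apply] at h1
    rw [← h1]
    have := htail S x
    rw [← abs_neg] at this
    convert this using 2
    ring
  have hHdep : Dep (M + N) H := by
    intro x y hxy
    simp only [hH, hχ, hH0]
    rw [F_dep M N x y hxy]
    congr 1
    exact Finset.sum_congr rfl fun j _ => by rw [R_dep _ M N x y hxy]
  have hHind : ∀ i, i < M → Indep i H := by
    intro i hi x t
    simp only [hH, hχ, hH0]
    rw [F_indep (Or.inl hi)]
    congr 1
    exact Finset.sum_congr rfl fun j _ => by rw [R_indep (Or.inl hi)]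
  set c := Tn M N H (fun _ => 1) with hc
  have hconst : ∀ x, Tn M N H x = c := fun x =>
    Tn_eq_of_forall_indep (M + N) (fun i hi => hi.elim (hHind i) fun h => hHdep.indep h)
      hHdep x _
  have hc1 : |c - 1| ≤ δ := by
    have := hHw ∅ (Finset.empty_subset _) (fun _ => 1)
    simp only [w, Finset.prod_empty, mul_one, Finset.card_empty, pow_zero, ha1] at this
    exact this
  have hc2 : 1 / 2 ≤ c := by
    have := (abs_le.1 hc1).1
    linarith
  have hc0 : 0 < c := by linarith
  refine ⟨fun y => c⁻¹ * H y, ?_, ?_, ?_, ?_, ?_⟩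
  · intro x y hxy
    simp only
    rw [hHdep x y hxy]
  · intro i hi x t
    simp only
    rw [hHind i hi x t]
  · intro x hx
    by_contra hcon
    apply hx
    simp only [hH, hχ, if_neg hcon, zero_mul, mul_zero]
  · intro x
    have : (fun y => c⁻¹ * H y) = c⁻¹ • H := rfl
    rw [this, Tn_smul, Pi.smul_apply, hconst, smul_eq_mul, inv_mul_cancel₀ hc0.ne']
  · intro S hS hSne x
    have : (fun y => c⁻¹ * H y * w S y) = c⁻¹ • (fun y => H y * w S y) := by
      funext y; simp only [Pi.smul_apply, smul_eq_mul]; ring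
    rw [this, Tn_smul, Pi.smul_apply, smul_eq_mul, abs_mul, abs_of_pos (inv_pos.2 hc0)]
    have h1 := hHw S hS x
    have h2 : |∑ j, a j * (τ * s j) ^ S.card| ≤ ε / 8 := by
      have : ∑ j, a j * (τ * s j) ^ S.card = τ ^ S.card * ∑ j, a j * s j ^ S.card := by
        rw [Finset.mul_sum]
        exact Finset.sum_congr rfl fun j _ => by rw [mul_pow]; ring
      rw [this, abs_mul, abs_pow, hτ1, one_pow, one_mul]
      exact hak _ (Finset.card_pos.2 hSne)
    have h3 : |Tn M N (fun y => H y * w S y) x| ≤ ε / 4 := by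
      have := abs_add_le (Tn M N (fun y => H y * w S y) x - ∑ j, a j * (τ * s j) ^ S.card)
        (∑ j, a j * (τ * s j) ^ S.card)
      rw [sub_add_cancel] at this
      linarith
    have h4 : c⁻¹ ≤ 2 := by
      rw [inv_le_comm₀ hc0 (by norm_num)]
      linarith
    calc c⁻¹ * |Tn M N (fun y => H y * w S y) x| ≤ 2 * (ε / 4) := by
          apply mul_le_mul h4 h3 (abs_nonneg _) (by norm_num)
      _ ≤ ε := by linarith

end

end H959.Wed
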