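import Pool.Agent.H959R2.Wed.Block2

set_option autoImplicit false

open Function Finset

namespace H959.Wed

noncomputable section

def coef (M : ℕ) (P : G → ℝ) (A : Finset ℕ) : ℝ := Tn 0 M (fun y => P y * w A y) (fun _ => 1)

lemma Dep.mul {n : ℕ} {f g : G → ℝ} (hf : Dep n f) (hg : Dep n g) : Dep n (fun x => f x * g x) :=
  fun x y hxy => by simp only [hf x y hxy, hg x y hxy]

lemma Dep.add {n : ℕ} {f g : G → ℝ} (hf : Dep n f) (hg : Dep n g) : Dep n (fun x => f x + g x) :=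
  fun x y hxy => by simp only [hf x y hxy, hg x y hxy]

lemma step (M : ℕ) (P σ : G → ℝ) (hP : Dep M P) (hσ : Dep M σ) (hσ1 : ∀ x, σ x = 1 ∨ σ x = -1)
    (ε : ℝ) (hε : 0 < ε) (N1 : ℕ) :
    ∃ N, N1 ≤ N ∧ 0 < N ∧ ∃ P' : G → ℝ, Dep (M + N) P' ∧
      (∀ x, P' x ≠ 0 → P x ≠ 0 ∧ |32 * F M N x - σ x| ≤ 1 / 2) ∧
      (∀ A : Finset ℕ, (∀ i ∈ A, i < M) → coef (M + N) P' A = coef M P A) ∧
      (∀ A : Finset ℕ, (∀ i ∈ A, i < M + N) → (¬ ∀ i ∈ A, i < M) →
        |coef (M + N) P' A| ≤ ε) := by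
  classical
  obtain ⟨C, hC0, hC⟩ := hP.bounded
  obtain ⟨N0, hN0, hb⟩ := block (ε / (C + 1)) (by positivity)
  set N := max N0 N1 with hN
  obtain ⟨hp, hp1, hp2, hp3, hp4, hp5⟩ := hb N (le_max_left _ _) M 1 (Or.inl rfl)
  obtain ⟨hm, hm1, hm2, hm3, hm4, hm5⟩ := hb N (le_max_left _ _) M (-1) (Or.inr rfl)
  set Qp : G → ℝ := fun x => P x * ((1 + σ x) / 2) with hQp
  set Qm : G → ℝ := fun x => P x * ((1 - σ x) / 2) with hQm
  have hQpd : Dep M Qp := fun x y hxy => by simp only [hQp, hP x y hxy, hσ x y hxy]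
  have hQmd : Dep M Qm := fun x y hxy => by simp only [hQm, hP x y hxy, hσ x y hxy]
  set P' : G → ℝ := fun x => Qp x * hp x + Qm x * hm x with hP'
  -- general factorisation
  have hfac : ∀ A1 A2 : Finset ℕ, (∀ i ∈ A1, i < M) → (∀ i ∈ A2, M ≤ i) →
      Tn 0 (M + N) (fun y => P' y * (w A1 y * w A2 y)) (fun _ => 1) =
      Tn 0 M (fun y => (Qp y * w A1 y) * Tn M N (fun z => hp z * w A2 z) y +
        (Qm y * w A1 y) * Tn M N (fun z => hm z * w A2 z) y) (fun _ => 1) := by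
    intro A1 A2 hA1 hA2
    rw [Tn_split]
    congr 1
    have h1 : (fun y => P' y * (w A1 y * w A2 y)) =
        (fun y => (Qp y * w A1 y) • (hp y * w A2 y)) +
        (fun y => (Qm y * w A1 y) • (hm y * w A2 y)) := by
      funext y
      simp only [Pi.add_apply, smul_eq_mul, hP']
      ring
    have hi1 : ∀ i, M ≤ i → i < M + N → Indep i (fun y : G => Qp y * w A1 y) :=
      fun i hi _ => (hQpd.mul (w_dep hA1)).indep hi
    have hi2 : ∀ i, M ≤ i → i < M + N → Indep i (fun y : G => Qm y * w A1 y) :=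
      fun i hi _ => (hQmd.mul (w_dep hA1)).indep hi
    rw [h1, Tn_add, Tn_indep_smul hi1, Tn_indep_smul hi2]
    rfl
  refine ⟨N, le_max_right _ _, lt_of_lt_of_le hN0 (le_max_left _ _), P', ?_, ?_, ?_, ?_⟩
  · exact ((hQpd.mono (Nat.le_add_right _ _)).mul hp1).add
      ((hQmd.mono (Nat.le_add_right _ _)).mul hm1)
  · intro x hx
    rcases hσ1 x with h | h
    · have e : P' x = P x * hp x := by simp only [hP', hQp, hQm, h]; ring
      rw [e] at hx
      refine ⟨left_ne_zero_of_mul hx, ?_⟩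
      rw [h]
      exact hp3 x (right_ne_zero_of_mul hx)
    · have e : P' x = P x * hm x := by simp only [hP', hQp, hQm, h]; ring
      rw [e] at hx
      refine ⟨left_ne_zero_of_mul hx, ?_⟩
      rw [h]
      exact hm3 x (right_ne_zero_of_mul hx)
  · intro A hA
    have h1 := hfac A ∅ hA (by simp)
    have e1 : (fun y => P' y * (w A y * w ∅ y)) = fun y => P' y * w A y := by
      funext y; simp [w]
    rw [e1] at h1
    unfold coef
    rw [h1]
    congr 1
    funext y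
    have e2 : (fun z => hp z * w ∅ z) = hp := by funext z; simp [w]
    have e3 : (fun z => hm z * w ∅ z) = hm := by funext z; simp [w]
    rw [e2, e3, hp4, hm4]
    simp only [hQp, hQm]
    ring
  · intro A hA hA'
    set A1 := A.filter (fun i => i < M) with hA1
    set A2 := A.filter (fun i => ¬ i < M) with hA2
    have hw : ∀ y, w A y = w A1 y * w A2 y := by
      intro y
      unfold w
      rw [← Finset.prod_filter_mul_prod_filter_not A (fun i => i < M)]
    have h1 := hfac A1 A2 (fun i hi => (Finset.mem_filter.1 hi).2)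
      (fun i hi => not_lt.1 (Finset.mem_filter.1 hi).2)
    unfold coef
    simp only [hw]
    rw [h1, ← Real.norm_eq_abs]
    refine (norm_Tn_le _ _ _ _).trans ?_
    refine Tn_le_const 0 M (fun y => ?_) _
    have hne : A2.Nonempty := by
      push Not at hA'
      obtain ⟨i, hi, hi'⟩ := hA'
      exact ⟨i, Finset.mem_filter.2 ⟨hi, not_lt.2 hi'⟩⟩
    have hsub : A2 ⊆ Finset.Ico M (M + N) := by
      intro i hi
      rw [hA2, Finset.mem_filter] at hi
      rw [Finset.mem_Ico]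
      exact ⟨not_lt.1 hi.2, hA i hi.1⟩
    have b1 := hp5 A2 hsub hne y
    have b2 := hm5 A2 hsub hne y
    have hCε : C * (ε / (C + 1)) ≤ ε := by
      rw [mul_div_assoc', div_le_iff₀ (by positivity)]
      nlinarith
    rcases hσ1 y with h | h
    · have e1 : Qp y = P y := by simp only [hQp, h]; ring
      have e2 : Qm y = 0 := by simp only [hQm, h]; ring
      rw [e1, e2, zero_mul, zero_mul, add_zero, norm_mul, norm_mul]
      simp only [Real.norm_eq_abs]
      rw [abs_w, mul_one]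
      exact (mul_le_mul (hC y) b1 (abs_nonneg _) hC0).trans hCε
    · have e1 : Qp y = 0 := by simp only [hQp, h]; ring
      have e2 : Qm y = P y := by simp only [hQm, h]; ring
      rw [e1, e2, zero_mul, zero_mul, zero_add, norm_mul, norm_mul]
      simp only [Real.norm_eq_abs]
      rw [abs_w, mul_one]
      exact (mul_le_mul (hC y) b2 (abs_nonneg _) hC0).trans hCε

/-- an enumeration of all locally constant `±1`-valued functions, each occurring infinitely often -/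
lemma exists_enum : ∃ e : ℕ → G → ℝ, (∀ k, ∃ n, Dep n (e k)) ∧ (∀ k x, e k x = 1 ∨ e k x = -1) ∧
    ∀ (n : ℕ) (τ : G → ℝ), Dep n τ → (∀ x, τ x = 1 ∨ τ x = -1) → ∀ K, ∃ k, K ≤ k ∧ e k = τ := by
  classical
  let X := Σ n : ℕ, ((Fin n → ℤˣ) → Bool)
  let d : X → G → ℝ := fun p x => if p.2 (fun i => x i) then 1 else -1
  have : Nonempty X := ⟨⟨0, fun _ => true⟩⟩
  obtain ⟨f, hf⟩ := exists_surjective_nat X
  refine ⟨fun k => d (f (Nat.unpair k).1), fun k => ⟨(f (Nat.unpair k).1).1, ?_⟩, fun k x => ?_, ?_⟩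
  · intro x y hxy
    simp only [d]
    have : (fun i : Fin (f (Nat.unpair k).1).1 => x i) =
        fun i : Fin (f (Nat.unpair k).1).1 => y i := by
      funext i; exact hxy i i.2
    rw [this]
  · simp only [d]
    split_ifs <;> simp
  · intro n τ hτ hτ1 K
    let e : (Fin n → ℤˣ) → G := fun y i => if h : i < n then y ⟨i, h⟩ else 1
    obtain ⟨i, hi⟩ := hf ⟨n, fun y => decide (τ (e y) = 1)⟩
    refine ⟨Nat.pair i K, Nat.right_le_pair _ _, ?_⟩
    funext x
    simp only [Nat.unpair_pair, hi, d]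
    have h1 : τ (e fun i => x i) = τ x := by
      apply hτ
      intro i hi
      simp [e, hi]
    rcases hτ1 x with h | h
    · simp [h1, h]
    · simp only [h1, h]; norm_num

theorem exists_seq : ∃ (M N : ℕ → ℕ) (P σ : ℕ → G → ℝ), M 0 = 0 ∧ (∀ k, M (k + 1) = M k + N k) ∧
    (∀ k, k + 1 ≤ N k) ∧ (∀ x, P 0 x = 1) ∧ (∀ k, Dep (M k) (P k)) ∧ (∀ k, Dep (M k) (σ k)) ∧
    (∀ k x, σ k x = 1 ∨ σ k x = -1) ∧
    (∀ k x, P (k + 1) x ≠ 0 → P k x ≠ 0 ∧ |32 * F (M k) (N k) x - σ k x| ≤ 1 / 2) ∧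
    (∀ k (A : Finset ℕ), (∀ i ∈ A, i < M k) →
      coef (M (k + 1)) (P (k + 1)) A = coef (M k) (P k) A) ∧
    (∀ k (A : Finset ℕ), (∀ i ∈ A, i < M (k + 1)) → (¬ ∀ i ∈ A, i < M k) →
      |coef (M (k + 1)) (P (k + 1)) A| ≤ 1 / (k + 1)) ∧
    (∀ (n : ℕ) (τ : G → ℝ), Dep n τ → (∀ x, τ x = 1 ∨ τ x = -1) → ∀ K, ∃ k, K ≤ k ∧ σ k = τ) := by
  classical
  obtain ⟨e, he1, he2, he3⟩ := exists_enum
  let lev : ℕ → ℕ := fun k => Nat.find (he1 k)
  have hlev : ∀ k, Dep (lev k) (e k) := fun k => Nat.find_spec (he1 k)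
  let sg : ℕ → ℕ → G → ℝ := fun k M => if lev k ≤ M then e k else fun _ => 1
  have hsg1 : ∀ k M, Dep M (sg k M) := by
    intro k M
    by_cases h : lev k ≤ M
    · simp only [sg, if_pos h]; exact (hlev k).mono h
    · simp only [sg, if_neg h]; exact Dep.const _
  have hsg2 : ∀ k M x, sg k M x = 1 ∨ sg k M x = -1 := by
    intro k M x
    by_cases h : lev k ≤ M
    · simp only [sg, if_pos h]; exact he2 k x
    · simp only [sg, if_neg h]; simp
  let St := {p : ℕ × (G → ℝ) // Dep p.1 p.2}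
  have hstep : ∀ (k : ℕ) (s : St), ∃ s' : St, ∃ N, s'.1.1 = s.1.1 + N ∧ k + 1 ≤ N ∧
      (∀ x, s'.1.2 x ≠ 0 → s.1.2 x ≠ 0 ∧ |32 * F s.1.1 N x - sg k s.1.1 x| ≤ 1 / 2) ∧
      (∀ A : Finset ℕ, (∀ i ∈ A, i < s.1.1) → coef s'.1.1 s'.1.2 A = coef s.1.1 s.1.2 A) ∧
      (∀ A : Finset ℕ, (∀ i ∈ A, i < s'.1.1) → (¬ ∀ i ∈ A, i < s.1.1) →
        |coef s'.1.1 s'.1.2 A| ≤ 1 / (k + 1)) := by
    rintro k ⟨⟨M, P⟩, hP⟩
    obtain ⟨N, hN1, hN2, P', hP'1, hP'2, hP'3, hP'4⟩ :=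
      step M P (sg k M) hP (hsg1 k M) (hsg2 k M) (1 / (k + 1)) (by positivity) (k + 1)
    exact ⟨⟨⟨M + N, P'⟩, hP'1⟩, N, rfl, hN1, hP'2, hP'3, hP'4⟩
  choose nx Nf h1 h2 h3 h4 h5 using hstep
  let sq : ℕ → St := fun k => Nat.rec ⟨(0, fun _ => 1), Dep.const _⟩ (fun k s => nx k s) k
  have hsq : ∀ k, sq (k + 1) = nx k (sq k) := fun k => rfl
  refine ⟨fun k => (sq k).1.1, fun k => Nf k (sq k), fun k => (sq k).1.2,
    fun k => sg k (sq k).1.1, rfl, fun k => h1 k (sq k), fun k => h2 k (sq k), fun x => rfl,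
    fun k => (sq k).2, fun k => hsg1 _ _, fun k => hsg2 _ _, fun k => h3 k (sq k),
    fun k => h4 k (sq k), fun k => h5 k (sq k), ?_⟩
  intro n τ hτ hτ1 K
  have hMk : ∀ k, k ≤ (sq k).1.1 := by
    intro k
    induction k with
    | zero => exact Nat.zero_le _
    | succ k ih =>
      have := h1 k (sq k)
      have := h2 k (sq k)
      rw [hsq]
      omega
  obtain ⟨k, hk1, hk2⟩ := he3 n τ hτ hτ1 (max K n)
  refine ⟨k, (le_max_left _ _).trans hk1, ?_⟩
  have hl : lev k ≤ n := Nat.find_min' (he1 k) (by rw [hk2]; exact hτ)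
  have h6 : lev k ≤ (sq k).1.1 := hl.trans (((le_max_right _ _).trans hk1).trans (hMk k))
  simp only [sg, if_pos h6, hk2]

end

end H959.Wed
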