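import Pool.Agent.H959R2.Wed.Main

set_option autoImplicit false

open Function Finset MeasureTheory

namespace H959.Wed

noncomputable section

abbrev Γ := PontryaginDual G

instance : MeasurableSpace Γ := borel _
instance : BorelSpace Γ := ⟨rfl⟩

lemma coe_neg_one : (((-1 : Circle)) : ℂ) = -1 := by
  rfl

def kap : ℤˣ →* Circle where
  toFun t := if t = 1 then 1 else -1
  map_one' := by simp
  map_mul' a b := by
    rcases Int.units_eq_one_or a with rfl | rfl <;> rcases Int.units_eq_one_or b with rfl | rfl <;>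
      simp

lemma coe_kap (t : ℤˣ) : ((kap t : Circle) : ℂ) = ((t : ℤ) : ℂ) := by
  rcases Int.units_eq_one_or t with rfl | rfl
  · simp [kap]
  · simp [kap, coe_neg_one]

/-- Walsh characters -/
def wal (A : Finset ℕ) : Γ :=
  (⟨{ toFun := fun x => ∏ i ∈ A, kap (x i)
      map_one' := by simp
      map_mul' := fun x y => by simp [Finset.prod_mul_distrib] },
    by
      have : ∀ i, Continuous fun x : G => kap (x i) := fun i =>
        continuous_of_discreteTopology.comp (continuous_apply i)
      exact continuous_finsetProd _ fun i _ => this i⟩ : G →ₜ* Circle)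

lemma wal_apply (A : Finset ℕ) (x : G) : wal A x = ∏ i ∈ A, kap (x i) := rfl

lemma coe_prod_circle {ι : Type} (s : Finset ι) (f : ι → Circle) :
    ((∏ i ∈ s, f i : Circle) : ℂ) = ∏ i ∈ s, (f i : ℂ) := by
  classical
  induction s using Finset.induction_on with
  | empty => simp
  | insert a s ha ih => rw [Finset.prod_insert ha, Finset.prod_insert ha, Circle.coe_mul, ih]

lemma coe_wal (A : Finset ℕ) (x : G) : ((wal A x : Circle) : ℂ) = (w A x : ℂ) := by
  rw [wal_apply, coe_prod_circle]
  unfold w r
  push_cast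
  exact Finset.prod_congr rfl fun i _ => by rw [coe_kap]

lemma sq_eq_one (x : G) : x * x = 1 := by
  funext i
  rw [Pi.mul_apply, Pi.one_apply]
  rcases Int.units_eq_one_or (x i) with h | h <;> rw [h] <;> rfl

lemma char_sign (χ : Γ) (x : G) : χ x = 1 ∨ χ x = -1 := by
  have h : χ x * χ x = 1 := by rw [← map_mul, sq_eq_one, map_one]
  have h2 : ((χ x : Circle) : ℂ) * ((χ x : Circle) : ℂ) = 1 := by
    rw [← Circle.coe_mul, h, Circle.coe_one]
  rcases mul_self_eq_one_iff.1 h2 with h3 | h3
  · left; exact Circle.ext (by rw [h3, Circle.coe_one])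
  · right; exact Circle.ext (by rw [h3, coe_neg_one])

lemma wal_surj (χ : Γ) : ∃ A, wal A = χ := by
  classical
  -- χ is trivial on a cylinder
  have hcont : Continuous fun x : G => ((χ x : Circle) : ℂ).re := by
    have h1 : Continuous (fun x : G => (χ x : Circle)) := map_continuous χ
    exact Complex.continuous_re.comp (continuous_subtype_val.comp h1)
  have hopen : IsOpen {x : G | 0 < ((χ x : Circle) : ℂ).re} := isOpen_lt continuous_const hcont
  have h1mem : (1 : G) ∈ {x : G | 0 < ((χ x : Circle) : ℂ).re} := by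
    show 0 < ((χ (1 : G) : Circle) : ℂ).re
    rw [map_one]; simp
  obtain ⟨n, hn⟩ := exists_cyl_subset hopen h1mem
  have htriv : ∀ x : G, (∀ i, i < n → x i = 1) → χ x = 1 := by
    intro x hx
    rcases char_sign χ x with h | h
    · exact h
    · exfalso
      have h2 : x ∈ {x : G | 0 < ((χ x : Circle) : ℂ).re} := hn fun i hi => (hx i hi).symm
      have h3 : 0 < ((χ x : Circle) : ℂ).re := h2
      rw [h, coe_neg_one] at h3
      norm_num at h3
  let A := (Finset.range n).filter fun i => χ (Pi.mulSingle i (-1)) = -1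
  refine ⟨A, ?_⟩
  apply PontryaginDual.ext
  intro x
  -- decompose x
  have hx : x = (∏ i ∈ Finset.range n, Pi.mulSingle i (x i)) *
      (fun i => if i < n then 1 else x i) := by
    funext j
    rw [Pi.mul_apply, Finset.prod_apply]
    by_cases hj : j < n
    · rw [Finset.prod_eq_single_of_mem j (Finset.mem_range.2 hj)
        (fun i _ hi => by rw [Pi.mulSingle_eq_of_ne (Ne.symm hi)])]
      simp [hj]
    · rw [Finset.prod_eq_one (fun i hi => by
        rw [Finset.mem_range] at hi
        rw [Pi.mulSingle_eq_of_ne (by omega)])]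
      simp [hj]
  have h2 : χ x = ∏ i ∈ Finset.range n, χ (Pi.mulSingle i (x i)) := by
    conv_lhs => rw [hx]
    rw [map_mul, map_prod, htriv _ (fun i hi => by simp [hi]), mul_one]
  rw [h2, wal_apply, Finset.prod_filter]
  refine Finset.prod_congr rfl fun i _ => ?_
  rcases Int.units_eq_one_or (x i) with h | h
  · rw [h, Pi.mulSingle_one, map_one, map_one]; simp
  · rw [h]
    have hk : kap (-1) = -1 := by
      apply Circle.ext
      rw [coe_kap, coe_neg_one]; simp
    split_ifs with h3
    · rw [h3, hk]
    · rcases char_sign χ (Pi.mulSingle i (-1)) with h4 | h4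
      · exact h4.symm
      · exact absurd h4 h3

lemma wal_inj : Function.Injective wal := by
  classical
  have key : ∀ (A : Finset ℕ) (i : ℕ), i ∈ A ↔ wal A (Pi.mulSingle i (-1)) = -1 := by
    intro A i
    have hk : kap (-1) = -1 := by
      apply Circle.ext
      rw [coe_kap, coe_neg_one]; simp
    rw [wal_apply]
    by_cases hi : i ∈ A
    · rw [Finset.prod_eq_single_of_mem i hi (fun j _ hj => by
        rw [Pi.mulSingle_eq_of_ne hj, map_one])]
      simp [hi, hk]
    · rw [Finset.prod_eq_one (fun j hj => by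
        have : j ≠ i := by rintro rfl; exact hi hj
        rw [Pi.mulSingle_eq_of_ne this, map_one])]
      simp only [hi, false_iff]
      intro h
      have := congrArg (fun z : Circle => (z : ℂ)) h
      simp only [Circle.coe_one, coe_neg_one] at this
      norm_num at this
  intro A B hAB
  ext i
  rw [key A, key B, hAB]

def eqv : Finset ℕ ≃ Γ := Equiv.ofBijective wal ⟨wal_inj, wal_surj⟩

instance : Countable Γ := eqv.symm.injective.countable

instance : (Measure.count : Measure Γ).IsHaarMeasure := by
  haveI h1 : IsFiniteMeasureOnCompacts (Measure.count : Measure Γ) := by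
    refine ⟨fun K hK => ?_⟩
    exact Measure.count_apply_lt_top.2 (isCompact_iff_finite.1 hK)
  haveI h2 : (Measure.count : Measure Γ).IsOpenPosMeasure := by
    refine ⟨fun U _ hne => ?_⟩
    rw [Ne, Measure.count_eq_zero_iff]
    exact hne.ne_empty
  exact Measure.IsHaarMeasure.mk

lemma integral_count_eq {φ : Γ → ℂ} (hφ : Summable fun χ => ‖φ χ‖) :
    ∫ χ, φ χ ∂(Measure.count : Measure Γ) = ∑' χ, φ χ := by
  rw [integral_countable (integrable_count_iff.2 hφ)]
  refine tsum_congr fun χ => ?_
  simp [Measure.real]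

lemma integral_count_norm {φ : Γ → ℂ} (hφ : Summable fun χ => ‖φ χ‖) :
    ∫ χ, ‖φ χ‖ ∂(Measure.count : Measure Γ) = ∑' χ, ‖φ χ‖ := by
  rw [integral_countable (integrable_count_iff.2 (by simpa using hφ))]
  refine tsum_congr fun χ => ?_
  simp [Measure.real]

/-- transfer between `NA` and the Fourier algebra -/
lemma NA_iff (f : G → ℂ) (c : ℝ) : NA f c ↔ ∃ φ : Γ → ℂ,
    Integrable φ (Measure.count : Measure Γ) ∧
      ∫ χ, ‖φ χ‖ ∂(Measure.count : Measure Γ) ≤ c ∧
      ∀ x, f x = ∫ χ, φ χ * ((χ x : Circle) : ℂ) ∂(Measure.count : Measure Γ) := by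
  constructor
  · rintro ⟨φ, h1, h2, h3⟩
    have hs : Summable fun χ : Γ => ‖φ (eqv.symm χ)‖ :=
      (eqv.symm.summable_iff (f := fun A => ‖φ A‖)).2 h1
    refine ⟨fun χ => φ (eqv.symm χ), integrable_count_iff.2 hs, ?_, fun x => ?_⟩
    · rw [integral_count_norm hs, eqv.symm.tsum_eq (fun A => ‖φ A‖)]
      exact h2
    · have hs2 : Summable fun χ : Γ => ‖φ (eqv.symm χ) * ((χ x : Circle) : ℂ)‖ := by
        simpa only [norm_mul, Circle.norm_coe, mul_one] using hs
      rw [integral_count_eq hs2, ← (h3 x).tsum_eq, ← eqv.tsum_eq]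
      refine tsum_congr fun A => ?_
      rw [Equiv.symm_apply_apply]
      congr 1
      exact (coe_wal A x).symm
  · rintro ⟨φ, h1, h2, h3⟩
    have hs : Summable fun χ : Γ => ‖φ χ‖ := integrable_count_iff.1 h1
    rw [integral_count_norm hs] at h2
    have hs' : Summable fun A => ‖φ (eqv A)‖ := (eqv.summable_iff (f := fun χ => ‖φ χ‖)).2 hs
    refine ⟨fun A => φ (eqv A), hs', ?_, fun x => ?_⟩
    · rw [eqv.tsum_eq (fun χ => ‖φ χ‖)]; exact h2
    · have hs2 : Summable fun χ : Γ => ‖φ χ * ((χ x : Circle) : ℂ)‖ := by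
        simpa only [norm_mul, Circle.norm_coe, mul_one] using hs
      rw [h3 x, integral_count_eq hs2]
      have h4 : HasSum (fun χ : Γ => φ χ * ((χ x : Circle) : ℂ))
          (∑' χ : Γ, φ χ * ((χ x : Circle) : ℂ)) := (Summable.of_norm hs2).hasSum
      have h5 := (eqv.hasSum_iff).2 h4
      have h6 : (fun A => φ (eqv A) * (w A x : ℂ)) =
          (fun χ : Γ => φ χ * ((χ x : Circle) : ℂ)) ∘ eqv := by
        funext A
        simp only [Function.comp]
        congr 1
        exact (coe_wal A x).symm
      rw [h6]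
      exact h5

end

end H959.Wed
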