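import Pool.Agent.H959R2.Wed.NA

set_option autoImplicit false

open Function Finset

namespace H959.Wed

noncomputable section

structure Data where
  M : ℕ → ℕ
  N : ℕ → ℕ
  P : ℕ → G → ℝ
  σ : ℕ → G → ℝ
  M0 : M 0 = 0
  M1 : ∀ k, M (k + 1) = M k + N k
  N1 : ∀ k, k + 1 ≤ N k
  P0 : ∀ x, P 0 x = 1
  hP : ∀ k, Dep (M k) (P k)
  hσ : ∀ k, Dep (M k) (σ k)
  hσ1 : ∀ k x, σ k x = 1 ∨ σ k x = -1
  supp : ∀ k x, P (k + 1) x ≠ 0 → P k x ≠ 0 ∧ |32 * F (M k) (N k) x - σ k x| ≤ 1 / 2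
  c1 : ∀ k (A : Finset ℕ), (∀ i ∈ A, i < M k) →
      coef (M (k + 1)) (P (k + 1)) A = coef (M k) (P k) A
  c2 : ∀ k (A : Finset ℕ), (∀ i ∈ A, i < M (k + 1)) → (¬ ∀ i ∈ A, i < M k) →
      |coef (M (k + 1)) (P (k + 1)) A| ≤ 1 / (k + 1)
  enum : ∀ (n : ℕ) (τ : G → ℝ), Dep n τ → (∀ x, τ x = 1 ∨ τ x = -1) → ∀ K, ∃ k, K ≤ k ∧ σ k = τ

theorem exists_data : Nonempty Data := by
  obtain ⟨M, N, P, σ, h1, h2, h3, h4, h5, h6, h7, h8, h9, h10, h11⟩ := exists_seq
  exact ⟨⟨M, N, P, σ, h1, h2, h3, h4, h5, h6, h7, h8, h9, h10, h11⟩⟩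

/-- coordinates `< M` are averaged, so functions independent of them factor out -/
lemma Tn_hasSum {ι : Type} {M N : ℕ} {g : ι → G → ℂ} {f : G → ℂ}
    (h : ∀ x, HasSum (fun A => g A x) (f x)) (x : G) :
    HasSum (fun A => Tn M N (g A) x) (Tn M N f x) := by
  induction N generalizing f g x with
  | zero => exact h x
  | succ N ih =>
    refine ih (g := fun A => T (M + N) (g A)) (f := T (M + N) f) (fun y => ?_) x
    simp only [T]
    exact ((h _).add (h _)).const_smul _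

lemma Tn_ofReal {M N : ℕ} (c : ℂ) (g : G → ℝ) (x : G) :
    Tn M N (fun y => c * ((g y : ℝ) : ℂ)) x = c * ((Tn M N g x : ℝ) : ℂ) := by
  induction N generalizing g x with
  | zero => rfl
  | succ N ih =>
    have : T (M + N) (fun y => c * ((g y : ℝ) : ℂ)) =
        fun y => c * ((T (M + N) g y : ℝ) : ℂ) := by
      funext y
      simp only [T, smul_eq_mul, Complex.real_smul]
      push_cast
      ring
    rw [Tn_succ, this, ih, Tn_succ]

lemma weight_bound {M : ℕ} {Q : G → ℝ} {δ : ℝ} (hδ : 0 ≤ δ)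
    (hQ : ∀ A : Finset ℕ, |Tn 0 M (fun y => Q y * w A y) (fun _ => 1)| ≤ δ)
    {f : G → ℂ} {c : ℝ} (hf : NA f c) :
    ‖Tn 0 M (fun y => Q y • f y) (fun _ => 1)‖ ≤ δ * c := by
  obtain ⟨φ, h1, h2, h3⟩ := hf
  have h4 : ∀ x, HasSum (fun A => φ A * ((Q x * w A x : ℝ) : ℂ)) (Q x • f x) := by
    intro x
    have h4 := (h3 x).mul_left (Q x : ℂ)
    have h5 : (fun A => φ A * ((Q x * w A x : ℝ) : ℂ)) =
        fun A => (Q x : ℂ) * (φ A * (w A x : ℂ)) := by
      funext A
      push_cast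
      ring
    rw [h5, Complex.real_smul]
    exact h4
  have h5 := Tn_hasSum (M := 0) (N := M) (g := fun A y => φ A * ((Q y * w A y : ℝ) : ℂ)) h4
    (fun _ => 1)
  simp only [Tn_ofReal] at h5
  rw [← h5.tsum_eq]
  have h6 : ∀ A, ‖φ A * ((Tn 0 M (fun y => Q y * w A y) (fun _ => 1) : ℝ) : ℂ)‖ ≤ δ * ‖φ A‖ := by
    intro A
    rw [norm_mul, Complex.norm_real, Real.norm_eq_abs, mul_comm]
    exact mul_le_mul_of_nonneg_right (hQ A) (norm_nonneg _)
  refine (tsum_of_norm_bounded (h1.mul_left δ).hasSum h6).trans ?_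
  rw [tsum_mul_left]
  exact mul_le_mul_of_nonneg_left h2 hδ

namespace Data

variable (D : Data)

def E : Set G := {x | ∀ k, |32 * F (D.M k) (D.N k) x - D.σ k x| ≤ 1 / 2}

def Ek (k : ℕ) : Set G := {x | ∀ j < k, |32 * F (D.M j) (D.N j) x - D.σ j x| ≤ 1 / 2}

lemma M_mono : Monotone D.M := monotone_nat_of_le_succ fun k => by rw [D.M1]; omega

lemma mem_Ek {k : ℕ} {x : G} (h : D.P k x ≠ 0) : x ∈ D.Ek k := by
  induction k with
  | zero => intro j hj; omega
  | succ k ih =>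
    obtain ⟨h1, h2⟩ := D.supp k x h
    intro j hj
    rcases Nat.lt_succ_iff_lt_or_eq.1 hj with h3 | rfl
    · exact ih h1 j h3
    · exact h2

lemma coef_filter (k : ℕ) (A : Finset ℕ) :
    coef (D.M k) (D.P k) A = coef (D.M k) (D.P k) (A.filter (fun i => i < D.M k)) := by
  classical
  have hw : ∀ y, w A y = w (A.filter (fun i => i < D.M k)) y *
      w (A.filter (fun i => ¬ i < D.M k)) y := by
    intro y
    unfold w
    rw [← Finset.prod_filter_mul_prod_filter_not A (fun i => i < D.M k)]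
  unfold coef
  have h1 : (fun y => D.P k y * w A y) = fun y => (w (A.filter (fun i => ¬ i < D.M k)) y) •
      (D.P k y * w (A.filter (fun i => i < D.M k)) y) := by
    funext y; rw [hw, smul_eq_mul]; ring
  rw [h1, Tn_indep_smul]
  · have : w (A.filter (fun i => ¬ i < D.M k)) (fun _ => 1) = 1 := by
      unfold w r; simp
    simp only [this, one_smul]
  · intro i _ hi
    apply w_indep
    simp only [Finset.mem_filter, not_and, not_not]
    intro _; omega

lemma coef_le_one (k : ℕ) (A : Finset ℕ) : |coef (D.M k) (D.P k) A| ≤ 1 := by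
  induction k generalizing A with
  | zero =>
    unfold coef
    rw [D.M0, Tn_zero, D.P0, one_mul, abs_w]
  | succ k ih =>
    rw [D.coef_filter]
    set A' := A.filter (fun i => i < D.M (k + 1))
    have hA' : ∀ i ∈ A', i < D.M (k + 1) := fun i hi => (Finset.mem_filter.1 hi).2
    by_cases h : ∀ i ∈ A', i < D.M k
    · rw [D.c1 k A' h]; exact ih A'
    · refine (D.c2 k A' hA' h).trans ?_
      rw [div_le_one (by positivity)]
      have : (0 : ℝ) ≤ k := Nat.cast_nonneg k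
      linarith

lemma coef_small {j k : ℕ} (hjk : j ≤ k) (A : Finset ℕ) (hA : ∀ i ∈ A, i < D.M k)
    (hA' : ¬ ∀ i ∈ A, i < D.M j) : |coef (D.M k) (D.P k) A| ≤ 1 / (j + 1) := by
  induction k, hjk using Nat.le_induction with
  | base => exact absurd hA hA'
  | succ k hk ih =>
    by_cases h : ∀ i ∈ A, i < D.M k
    · rw [D.c1 k A h]; exact ih h
    · refine (D.c2 k A hA h).trans ?_
      have : (j : ℝ) ≤ k := by exact_mod_cast hk
      gcongr

lemma coef_empty (k : ℕ) : coef (D.M k) (D.P k) ∅ = 1 := by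
  induction k with
  | zero =>
    unfold coef
    rw [D.M0, Tn_zero, D.P0]; simp [w]
  | succ k ih => rw [D.c1 k ∅ (by simp), ih]

lemma coef_F {j k : ℕ} (hjk : j < k) (A : Finset ℕ) :
    |Tn 0 (D.M k) (fun y => D.P k y * F (D.M j) (D.N j) y * w A y) (fun _ => 1)| ≤
      2 / (j + 1) := by
  classical
  have hNj : 0 < D.N j := by have := D.N1 j; omega
  have hNjR : (0 : ℝ) < D.N j := by exact_mod_cast hNj
  have h1 : (fun y => D.P k y * F (D.M j) (D.N j) y * w A y) = (1 / D.N j : ℝ) •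
      ∑ i ∈ Finset.Ico (D.M j) (D.M j + D.N j), fun y => D.P k y * w (symmDiff {i} A) y := by
    funext y
    simp only [Pi.smul_apply, Finset.sum_apply, smul_eq_mul, F]
    have h2 : ∀ i, D.P k y * w (symmDiff {i} A) y = r i y * (D.P k y * w A y) := by
      intro i
      rw [← w_mul]
      have : w {i} y = r i y := by simp [w]
      rw [this]; ring
    simp only [h2]
    rw [← Finset.sum_mul]
    ring
  rw [h1, Tn_smul, Tn_sum, Pi.smul_apply, Finset.sum_apply, smul_eq_mul]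
  have h2 : ∀ i, Tn 0 (D.M k) (fun y => D.P k y * w (symmDiff {i} A) y) (fun _ => 1) =
      coef (D.M k) (D.P k) (symmDiff {i} A) := fun i => rfl
  simp only [h2]
  set A' := A.filter (fun i => i < D.M k) with hA'
  let bad : ℕ → Prop := fun i => ∀ l ∈ symmDiff {i} A', l < D.M j
  have hMj : D.M j + D.N j ≤ D.M k := by
    rw [← D.M1]; exact D.M_mono hjk
  have h3 : ∀ i ∈ Finset.Ico (D.M j) (D.M j + D.N j),
      |coef (D.M k) (D.P k) (symmDiff {i} A)| ≤ 1 / (j + 1) + if bad i then 1 else 0 := by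
    intro i hi
    rw [Finset.mem_Ico] at hi
    have hik : i < D.M k := by omega
    have h4 : (symmDiff {i} A).filter (fun i => i < D.M k) = symmDiff {i} A' := by
      ext l
      simp only [Finset.mem_filter, Finset.mem_symmDiff, Finset.mem_singleton, hA']
      constructor
      · rintro ⟨h | h, hl⟩
        · left; exact ⟨h.1, fun h' => h.2 h'.1⟩
        · right; exact ⟨⟨h.1, hl⟩, h.2⟩
      · rintro (h | h)
        · refine ⟨Or.inl ⟨h.1, fun h' => h.2 ⟨h', by rw [h.1]; exact hik⟩⟩, by rw [h.1]; exact hik⟩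
        · exact ⟨Or.inr ⟨h.1.1, h.2⟩, h.1.2⟩
    rw [D.coef_filter, h4]
    by_cases hb : bad i
    · rw [if_pos hb]
      have := D.coef_le_one k (symmDiff {i} A')
      have : (0 : ℝ) ≤ 1 / (j + 1) := by positivity
      linarith
    · rw [if_neg hb, add_zero]
      refine D.coef_small hjk.le _ ?_ hb
      intro l hl
      rw [← h4] at hl
      exact (Finset.mem_filter.1 hl).2
  have h5 : ((Finset.Ico (D.M j) (D.M j + D.N j)).filter bad).card ≤ 1 := by
    rw [Finset.card_le_one]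
    intro i hi i' hi'
    rw [Finset.mem_filter, Finset.mem_Ico] at hi hi'
    by_contra hne
    have h6 : i ∈ A' := by
      by_contra h
      have := hi.2 i (by simp [Finset.mem_symmDiff, h])
      omega
    have h7 : i ∈ symmDiff {i'} A' := by
      simp only [Finset.mem_symmDiff, Finset.mem_singleton]
      exact Or.inr ⟨h6, hne⟩
    have := hi'.2 i h7
    omega
  have h8 : |∑ i ∈ Finset.Ico (D.M j) (D.M j + D.N j), coef (D.M k) (D.P k) (symmDiff {i} A)| ≤
      D.N j * (1 / (j + 1)) + 1 := by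
    refine (Finset.abs_sum_le_sum_abs _ _).trans ((Finset.sum_le_sum h3).trans ?_)
    rw [Finset.sum_add_distrib, Finset.sum_const, Nat.card_Ico, Nat.add_sub_cancel_left,
      nsmul_eq_mul]
    gcongr
    rw [Finset.sum_boole]
    exact_mod_cast h5
  rw [abs_mul, abs_of_pos (by positivity : (0 : ℝ) < 1 / D.N j)]
  have h9 : (1 : ℝ) / D.N j ≤ 1 / (j + 1) := by
    have : ((j + 1 : ℕ) : ℝ) ≤ D.N j := by exact_mod_cast D.N1 j
    push_cast at this
    gcongr
  calc 1 / (D.N j : ℝ) * _ ≤ 1 / (D.N j : ℝ) * (D.N j * (1 / (j + 1)) + 1) := by gcongr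
    _ = 1 / (j + 1) + 1 / D.N j := by field_simp
    _ ≤ 1 / (j + 1) + 1 / (j + 1) := by gcongr
    _ = 2 / (j + 1) := by ring

def Lam (k : ℕ) (f : G → ℂ) : ℂ := Tn 0 (D.M k) (fun y => D.P k y • f y) (fun _ => 1)

lemma norm_Lam_le (k : ℕ) {f : G → ℂ} {c : ℝ} (hf : NA f c) : ‖D.Lam k f‖ ≤ c := by
  have := weight_bound (M := D.M k) (Q := D.P k) zero_le_one (fun A => D.coef_le_one k A) hf
  rwa [one_mul] at this

lemma Lam_congr (k : ℕ) {f g : G → ℂ} (h : ∀ x ∈ D.Ek k, f x = g x) : D.Lam k f = D.Lam k g := by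
  unfold Lam
  congr 1
  funext y
  by_cases hy : D.P k y = 0
  · rw [hy, zero_smul, zero_smul]
  · rw [h y (D.mem_Ek hy)]

lemma Lam_one (k : ℕ) : D.Lam k (fun _ => 1) = 1 := by
  unfold Lam
  have h1 : (fun y => D.P k y • (1 : ℂ)) = fun y => (1 : ℂ) * ((D.P k y * w ∅ y : ℝ) : ℂ) := by
    funext y; simp [w]
  rw [h1, Tn_ofReal]
  have := D.coef_empty k
  unfold coef at this
  rw [this]; simp

lemma norm_Lam_F_le {j k : ℕ} (hjk : j < k) {f : G → ℂ} {c : ℝ} (hf : NA f c) :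
    ‖D.Lam k (fun x => (F (D.M j) (D.N j) x : ℂ) * f x)‖ ≤ 2 / (j + 1) * c := by
  have h1 : D.Lam k (fun x => (F (D.M j) (D.N j) x : ℂ) * f x) =
      Tn 0 (D.M k) (fun y => (D.P k y * F (D.M j) (D.N j) y) • f y) (fun _ => 1) := by
    unfold Lam
    congr 1
    funext y
    simp only [Complex.real_smul]
    push_cast
    ring
  rw [h1]
  exact weight_bound (by positivity) (fun A => D.coef_F hjk A) hf

end Data

end

end H959.Wed
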