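import Pool.Agent.H959R2.Wed.NoSplit

set_option autoImplicit false

open Function Finset

namespace H959.Wed

noncomputable section

namespace Data

/-- restriction to `E` -/
def restr (D : Data) (f : G → ℂ) (hf : Continuous f) : C(D.E, ℂ) := ⟨fun x => f x, by fun_prop⟩

structure Split (D : Data) where
  θ : C(D.E, ℂ) → G → ℂ
  t1 : ∀ u, ∃ c, NA (θ u) c
  t2 : ∀ u (x : G) (hx : x ∈ D.E), θ u x = u ⟨x, hx⟩
  t3 : ∀ u v, D.J' (fun x => θ (u + v) x - θ u x - θ v x)
  t4 : ∀ (c : ℂ) u, D.J' (fun x => θ (c • u) x - c * θ u x)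
  t5 : ∀ u v, D.J' (fun x => θ (u * v) x - θ u x * θ v x)

variable {D : Data}

lemma Dep.cont {n : ℕ} {f : G → ℂ} (hf : Dep n f) : Continuous f := hf.continuous

lemma Split.idem (S : Split D) {n : ℕ} {e : G → ℂ} (he : Dep n e) (hee : ∀ x, e x * e x = e x) :
    D.J' (fun x => S.θ (D.restr e he.continuous) x - e x) := by
  obtain ⟨c, hc⟩ := S.t1 (D.restr e he.continuous)
  obtain ⟨C, hC⟩ : ∃ C, ∀ x, ‖e x‖ ≤ C := by
    have h := (he.finite_range.image (fun t : ℂ => ‖t‖)).bddAbove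
    obtain ⟨C, hC⟩ := h
    exact ⟨C, fun x => hC ⟨e x, ⟨x, rfl⟩, rfl⟩⟩
  refine idem_unique hc (he.NA hC) (fun x hx => S.t2 _ x hx) hee ?_
  have h1 := S.t5 (D.restr e he.continuous) (D.restr e he.continuous)
  have h2 : D.restr e he.continuous * D.restr e he.continuous = D.restr e he.continuous := by
    ext x
    exact hee x
  rw [h2] at h1
  exact h1.neg.congr fun x => by ring

lemma Split.zero (S : Split D) : D.J' (S.θ 0) := by
  have h := S.t4 0 0
  simp only [zero_smul, zero_mul, sub_zero] at h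
  exact h

lemma Split.dep (S : Split D) {n : ℕ} {f : G → ℂ} (hf : Dep n f) :
    D.J' (fun x => S.θ (D.restr f hf.continuous) x - f x) := by
  classical
  have key : ∀ s : Finset (Fin n → ℤˣ), ∃ hc : Continuous (fun x : G => ∑ y ∈ s,
      f (ext n y) * (cyl (ext n y) n x : ℂ)), D.J' (fun x => S.θ (D.restr _ hc) x -
        ∑ y ∈ s, f (ext n y) * (cyl (ext n y) n x : ℂ)) := by
    intro s
    induction s using Finset.induction_on with
    | empty =>
      refine ⟨by simpa using continuous_const, ?_⟩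
      refine S.zero.congr fun x => ?_
      simp only [Finset.sum_empty, sub_zero]
      congr 1
    | insert a s ha ih =>
      obtain ⟨hc, hJ⟩ := ih
      have hcyl : Dep n (fun x : G => (cyl (ext n a) n x : ℂ)) := fun x y hxy => by
        simp only [cyl_dep _ _ x y hxy]
      have hidem : ∀ x, (cyl (ext n a) n x : ℂ) * (cyl (ext n a) n x : ℂ) =
          (cyl (ext n a) n x : ℂ) := by
        intro x; rw [cyl_eq]; split_ifs <;> simp
      have h1 := S.idem hcyl hidem
      have hc1 : Continuous (fun x : G => (cyl (ext n a) n x : ℂ)) := hcyl.continuous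
      have hc2 : Continuous (fun x : G => ∑ y ∈ insert a s,
          f (ext n y) * (cyl (ext n y) n x : ℂ)) := by
        simp only [Finset.sum_insert ha]
        fun_prop
      refine ⟨hc2, ?_⟩
      have h2 := S.t3 (f (ext n a) • D.restr _ hcyl.continuous) (D.restr _ hc)
      have h3 : f (ext n a) • D.restr _ hcyl.continuous + D.restr _ hc = D.restr _ hc2 := by
        ext x
        simp only [restr, ContinuousMap.add_apply, ContinuousMap.smul_apply,
          ContinuousMap.coe_mk, smul_eq_mul, Finset.sum_insert ha]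
      rw [h3] at h2
      have h4 := S.t4 (f (ext n a)) (D.restr _ hcyl.continuous)
      have h5 := h1.smul (f (ext n a))
      refine (((h2.add h4).add h5).add hJ).congr fun x => ?_
      simp only [Finset.sum_insert ha]
      ring
  obtain ⟨hc, hJ⟩ := key Finset.univ
  have h1 : (fun x : G => ∑ y : Fin n → ℤˣ, f (ext n y) * (cyl (ext n y) n x : ℂ)) = f := by
    funext x; exact (hf.eq_sum x).symm
  have gen : ∀ (g : G → ℂ) (hg : Continuous g), g = f →
      D.J' (fun x => S.θ (D.restr g hg) x - g x) →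
      D.J' (fun x => S.θ (D.restr f hf.continuous) x - f x) := by
    rintro g hg rfl h; exact h
  exact gen _ hc h1 hJ

/-- the canonical seminorm is unbounded on locally constant functions -/
lemma unbounded (D : Data) (R : ℝ) : ∃ (n : ℕ) (u : G → ℂ), Dep n u ∧ (∀ x ∈ D.E, ‖u x‖ ≤ 1) ∧
    ¬ D.Q u R := by
  by_contra hcon
  push Not at hcon
  obtain ⟨f, ⟨c, hf⟩, hfE, hfJ⟩ := D.non_synthesis
  apply hfJ
  intro ε hε
  have hR : 0 ≤ |R| := abs_nonneg R
  set δ := ε / (|R| + 1) with hδ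
  have hδ0 : 0 < δ := by positivity
  obtain ⟨n, p, hp, hfp, -⟩ := hf.approx hδ0
  have hpE : ∀ x ∈ D.E, ‖p x‖ ≤ δ := by
    intro x hx
    have := hfp.norm_le x
    rwa [hfE x hx, zero_sub, norm_neg] at this
  have h1 := hcon n (fun x => (δ⁻¹ : ℂ) * p x) (fun x y hxy => by simp only [hp x y hxy])
    (fun x hx => by
      rw [norm_mul, norm_inv, Complex.norm_real, Real.norm_eq_abs, abs_of_pos hδ0,
        inv_mul_le_iff₀ hδ0, mul_one]
      exact hpE x hx)
  have h2 := h1.smul (δ : ℂ)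
  have h3 := h2.add (Q.of_NA hfp)
  have h4 : (δ : ℂ) ≠ 0 := by exact_mod_cast hδ0.ne'
  refine (h3.mono ?_).congr isOpen_univ (Set.subset_univ _) fun x _ => ?_
  · rw [Complex.norm_real, Real.norm_eq_abs, abs_of_pos hδ0]
    calc δ * R + δ ≤ δ * |R| + δ := by gcongr; exact le_abs_self R
      _ = ε := by rw [hδ]; field_simp
  · field_simp
    ring

/-- cylinder around ω -/
def Cy (x : G) (n : ℕ) : Set G := {y | ∀ i, i < n → x i = y i}

def Big (D : Data) (U : Set G) : Prop := ∀ R : ℝ, ∃ (n : ℕ) (u : G → ℂ), Dep n u ∧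
  (∀ x, x ∉ U → u x = 0) ∧ (∀ x ∈ D.E, ‖u x‖ ≤ 1) ∧ ¬ D.Q u R

lemma big_univ (D : Data) : D.Big Set.univ := by
  intro R
  obtain ⟨n, u, h1, h2, h3⟩ := D.unbounded R
  exact ⟨n, u, h1, fun x hx => absurd (Set.mem_univ x) hx, h2, h3⟩

lemma big_split {y : G} {n : ℕ} (h : D.Big (Cy y n)) :
    ∃ t : ℤˣ, D.Big (Cy (update y n t) (n + 1)) := by
  classical
  by_contra hcon
  push Not at hcon
  have h1 := hcon 1
  have h2 := hcon (-1)
  unfold Big at h1 h2
  push Not at h1 h2
  obtain ⟨R1, h1⟩ := h1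
  obtain ⟨R2, h2⟩ := h2
  obtain ⟨m, u, hu1, hu2, hu3, hu4⟩ := h (R1 + R2)
  apply hu4
  have hpart : ∀ (t : ℤˣ) (R : ℝ), (∀ (n_1 : ℕ) (u : G → ℂ), Dep n_1 u →
      (∀ x, x ∉ Cy (update y n t) (n + 1) → u x = 0) → (∀ x ∈ D.E, ‖u x‖ ≤ 1) → D.Q u R) →
      D.Q (fun x => if x n = t then u x else 0) R := by
    intro t R hR
    refine hR (max m (n + 1)) _ ?_ ?_ ?_
    · intro x z hxz
      have e1 : x n = z n := hxz n (by omega)
      have e2 : u x = u z := hu1 x z fun i hi => hxz i (by omega)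
      simp only [e1, e2]
    · intro x hx
      split_ifs with hxt
      · apply hu2
        intro hxC
        apply hx
        intro i hi
        by_cases hin : i = n
        · subst hin; rw [update_self, hxt]
        · rw [update_of_ne hin]
          exact hxC i (by omega)
      · rfl
    · intro x hx
      split_ifs
      · exact hu3 x hx
      · simp
  have h3 := (hpart 1 R1 h1).add (hpart (-1) R2 h2)
  refine h3.congr isOpen_univ (Set.subset_univ _) fun x _ => ?_
  rcases Int.units_eq_one_or (x n) with hx | hx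
  · simp [hx]
  · have : (-1 : ℤˣ) ≠ 1 := by decide
    simp [hx, this]

lemma exists_omega (D : Data) : ∃ ω : G, ∀ n, D.Big (Cy ω n) := by
  classical
  have hstep : ∀ (n : ℕ) (s : {y : G // D.Big (Cy y n)}),
      ∃ t : ℤˣ, D.Big (Cy (update s.1 n t) (n + 1)) := fun n s => big_split s.2
  choose t ht using hstep
  let sq : ∀ n : ℕ, {y : G // D.Big (Cy y n)} := fun n => Nat.rec
    ⟨fun _ => 1, by
      have : Cy (fun _ => 1) 0 = Set.univ := by ext; simp [Cy]
      rw [this]; exact D.big_univ⟩ (fun n s => ⟨update s.1 n (t n s), ht n s⟩) n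
  have hsq : ∀ n, (sq (n + 1)).1 = update (sq n).1 n (t n (sq n)) := fun n => rfl
  let ω : G := fun n => (sq (n + 1)).1 n
  have hω : ∀ n i, i < n → (sq n).1 i = ω i := by
    intro n
    induction n with
    | zero => intro i hi; omega
    | succ n ih =>
      intro i hi
      by_cases hin : i = n
      · subst hin; rfl
      · rw [hsq, update_of_ne hin]
        exact ih i (by omega)
  refine ⟨ω, fun n => ?_⟩
  have : Cy ω n = Cy (sq n).1 n := by
    ext y
    simp only [Cy, Set.mem_ofPred_eq]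
    exact ⟨fun h i hi => (hω n i hi).trans (h i hi), fun h i hi => (hω n i hi).symm.trans (h i hi)⟩
  rw [this]
  exact (sq n).2

lemma exists_annulus {ω : G} (hω : ∀ n, D.Big (Cy ω n)) (n : ℕ) (R : ℝ) :
    ∃ m, n < m ∧ ∃ (k : ℕ) (v : G → ℂ), Dep k v ∧ (∀ x, x ∉ Cy ω n → v x = 0) ∧
      (∀ x, x ∈ Cy ω m → v x = 0) ∧ (∀ x ∈ D.E, ‖v x‖ ≤ 1) ∧ ¬ D.Q v R := by
  classical
  obtain ⟨k, u, hu1, hu2, hu3, hu4⟩ := hω n (R + 1)
  set m := max k (n + 1) with hm
  have hωE : ∃ x ∈ D.E, x ∈ Cy ω m := by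
    by_contra hcon
    push Not at hcon
    obtain ⟨k', u', hu1', hu2', hu3', hu4'⟩ := hω m 0
    apply hu4'
    refine (Q.of_NA NA.zero).congr (V := {x | u' x = 0}) (hu1'.locConst {0}) ?_ fun x hx => hx
    intro x hx
    exact hu2' x (hcon x hx)
  obtain ⟨x0, hx0, hx0'⟩ := hωE
  have hconst : ∀ x ∈ Cy ω m, u x = u ω := fun x hx =>
    (hu1 ω x fun i hi => hx i (by omega)).symm
  have hc : ‖u ω‖ ≤ 1 := by rw [← hconst x0 hx0']; exact hu3 x0 hx0
  refine ⟨m, by omega, m, fun x => u x - u ω * (cyl ω m x : ℂ), ?_, ?_, ?_, ?_, ?_⟩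
  · intro x y hxy
    simp only [cyl_dep ω m x y hxy, hu1 x y fun i hi => hxy i (by omega)]
  · intro x hx
    have h1 : ¬ ∀ i, i < m → ω i = x i := fun h => hx fun i hi => h i (by omega)
    simp only [hu2 x hx, cyl_eq_zero h1]
    simp
  · intro x hx
    simp only [hconst x hx, cyl_eq_one hx]
    simp
  · intro x hx
    by_cases hxm : x ∈ Cy ω m
    · simp only [hconst x hxm, cyl_eq_one hxm]
      simp
    · simp only [cyl_eq_zero hxm]
      simpa using hu3 x hx
  · intro hQ
    apply hu4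
    have h1 := hQ.add (Q.of_NA ((NA.cyl ω m).smul (u ω)))
    refine (h1.mono ?_).congr isOpen_univ (Set.subset_univ _) fun x _ => by ring
    rw [mul_one]
    linarith

/-- the Bade–Curtis double sequence argument: there is no splitting -/
theorem no_split (D : Data) (S : Split D) : False := by
  classical
  obtain ⟨ω, hω⟩ := D.exists_omega
  choose nx hnx kk v hv1 hv2 hv3 hv4 hv5 using fun n R => exists_annulus hω n R
  -- the sequence of levels
  let Rk : ℕ → ℝ := fun k => 4 ^ ((Nat.unpair k).1 + (Nat.unpair k).2)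
  let lev : ℕ → ℕ := fun k => Nat.rec 0 (fun k n => nx n (Rk k)) k
  have hlev : ∀ k, lev (k + 1) = nx (lev k) (Rk k) := fun k => rfl
  have hlev_lt : ∀ k, lev k < lev (k + 1) := fun k => by rw [hlev]; exact hnx _ _
  have hlev_mono : StrictMono lev := strictMono_nat_of_lt_succ hlev_lt
  let V : ℕ → G → ℂ := fun k => v (lev k) (Rk k)
  have hVdep : ∀ k, Dep (kk (lev k) (Rk k)) (V k) := fun k => hv1 _ _
  let Dk : ℕ → Set G := fun k => {x | x ∈ Cy ω (lev k) ∧ x ∉ Cy ω (lev (k + 1))}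
  have hCyanti : ∀ m n, m ≤ n → Cy ω n ⊆ Cy ω m := fun m n h x hx i hi => hx i (by omega)
  have hVsupp : ∀ k x, x ∉ Dk k → V k x = 0 := by
    intro k x hx
    by_cases h1 : x ∈ Cy ω (lev k)
    · have h2 : x ∈ Cy ω (lev (k + 1)) := by
        by_contra h3
        exact hx ⟨h1, h3⟩
      exact hv3 _ _ x h2
    · exact hv2 _ _ x h1
  have hdisj : ∀ k k' x, x ∈ Dk k → x ∈ Dk k' → k = k' := by
    intro k k' x h1 h2
    rcases lt_trichotomy k k' with h | h | h
    · exact absurd (hCyanti _ _ (hlev_mono.monotone (Nat.succ_le_of_lt h)) h2.1) h1.2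
    · exact h
    · exact absurd (hCyanti _ _ (hlev_mono.monotone (Nat.succ_le_of_lt h)) h1.1) h2.2
  let I : ℕ → G → ℂ := fun k x => if x ∈ Dk k then 1 else 0
  have hIeq : ∀ k x, I k x = (cyl ω (lev k) x : ℂ) - (cyl ω (lev (k + 1)) x : ℂ) := by
    intro k x
    by_cases h1 : x ∈ Cy ω (lev k)
    · by_cases h2 : x ∈ Cy ω (lev (k + 1))
      · have : x ∉ Dk k := fun h => h.2 h2
        simp only [I, if_neg this, cyl_eq_one h1, cyl_eq_one h2]; simp
      · have : x ∈ Dk k := ⟨h1, h2⟩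
        simp only [I, if_pos this, cyl_eq_one h1, cyl_eq_zero h2]; simp
    · have h2 : x ∉ Cy ω (lev (k + 1)) := fun h => h1 (hCyanti _ _ (hlev_lt k).le h)
      have : x ∉ Dk k := fun h => h1 h.1
      simp only [I, if_neg this, cyl_eq_zero h1, cyl_eq_zero h2]; simp
  have hIdep : ∀ k, Dep (lev (k + 1)) (I k) := by
    intro k x y hxy
    rw [hIeq, hIeq, cyl_dep ω (lev (k + 1)) x y hxy,
      cyl_dep ω (lev k) x y fun i hi => hxy i (by have := hlev_lt k; omega)]
  let VE : ℕ → C(D.E, ℂ) := fun k => D.restr (V k) (hVdep k).continuous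
  let IE : ℕ → C(D.E, ℂ) := fun k => D.restr (I k) (hIdep k).continuous
  have hVEn : ∀ k, ‖VE k‖ ≤ 1 := by
    intro k
    rw [ContinuousMap.norm_le _ zero_le_one]
    exact fun x => hv4 _ _ x x.2
  have hIEn : ∀ k, ‖IE k‖ ≤ 1 := by
    intro k
    rw [ContinuousMap.norm_le _ zero_le_one]
    intro x
    simp only [IE, restr, ContinuousMap.coe_mk, I]
    split_ifs <;> simp
  have hgeo : Summable fun j : ℕ => (1 / 2 : ℝ) ^ j :=
    summable_geometric_of_lt_one (by norm_num) (by norm_num)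
  have hsa : ∀ i, Summable fun j : ℕ => ((1 / 2 : ℂ) ^ j) • VE (Nat.pair i j) := by
    intro i
    refine Summable.of_norm_bounded hgeo fun j => ?_
    rw [norm_smul, norm_pow]
    have : ‖(1 / 2 : ℂ)‖ = 1 / 2 := by simp
    rw [this]
    exact mul_le_of_le_one_right (by positivity) (hVEn _)
  let a : ℕ → C(D.E, ℂ) := fun i => ∑' j : ℕ, ((1 / 2 : ℂ) ^ j) • VE (Nat.pair i j)
  choose A hA using fun i => S.t1 (a i)
  -- choice of the indices
  have hJ : ∀ i, ∃ j : ℕ, A i ≤ 2 ^ j := fun i => by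
    obtain ⟨j, hj⟩ := pow_unbounded_of_one_lt (A i) (by norm_num : (1 : ℝ) < 2)
    exact ⟨j, hj.le⟩
  choose jj hjj using hJ
  have hsb : Summable fun i : ℕ => ((1 / 2 : ℂ) ^ i) • IE (Nat.pair i (jj i)) := by
    refine Summable.of_norm_bounded hgeo fun j => ?_
    rw [norm_smul, norm_pow]
    have : ‖(1 / 2 : ℂ)‖ = 1 / 2 := by simp
    rw [this]
    exact mul_le_of_le_one_right (by positivity) (hIEn _)
  let b : C(D.E, ℂ) := ∑' i : ℕ, ((1 / 2 : ℂ) ^ i) • IE (Nat.pair i (jj i))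
  obtain ⟨B, hB⟩ := S.t1 b
  -- evaluation of `a i` and `b`
  have haev : ∀ i (x : D.E), a i x = ∑' j : ℕ, ((1 / 2 : ℂ) ^ j) * V (Nat.pair i j) x := by
    intro i x
    have := (hsa i).hasSum.map (ContinuousMap.evalCLM ℂ x) (ContinuousMap.evalCLM ℂ x).continuous
    exact this.tsum_eq.symm
  have hbev : ∀ (x : D.E), b x = ∑' i : ℕ, ((1 / 2 : ℂ) ^ i) * I (Nat.pair i (jj i)) x := by
    intro x
    have := hsb.hasSum.map (ContinuousMap.evalCLM ℂ x) (ContinuousMap.evalCLM ℂ x).continuous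
    exact this.tsum_eq.symm
  have hab : ∀ i, a i * b = ((1 / 2 : ℂ) ^ (i + jj i)) • VE (Nat.pair i (jj i)) := by
    intro i
    ext x
    rw [ContinuousMap.mul_apply, ContinuousMap.smul_apply, haev, hbev, smul_eq_mul]
    change _ = (1 / 2 : ℂ) ^ (i + jj i) * V (Nat.pair i (jj i)) x
    by_cases hx : ∃ k, x.1 ∈ Dk k
    · obtain ⟨k, hk⟩ := hx
      obtain ⟨i0, j0, hij⟩ : ∃ i0 j0, k = Nat.pair i0 j0 :=
        ⟨(Nat.unpair k).1, (Nat.unpair k).2, (Nat.pair_unpair k).symm⟩
      subst hij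
      have hVne : ∀ i' j', Nat.pair i' j' ≠ Nat.pair i0 j0 → V (Nat.pair i' j') x = 0 :=
        fun i' j' h => hVsupp _ _ fun h' => h (hdisj _ _ _ h' hk)
      have hIne : ∀ i' j', Nat.pair i' j' ≠ Nat.pair i0 j0 → I (Nat.pair i' j') x = 0 := by
        intro i' j' h
        have : x.1 ∉ Dk (Nat.pair i' j') := fun h' => h (hdisj _ _ _ h' hk)
        simp only [I, if_neg this]
      have hI1 : I (Nat.pair i0 j0) x = 1 := by simp only [I, if_pos hk]
      by_cases hi : i = i0
      · subst hi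
        rw [tsum_eq_single j0 (fun j hj => by
          rw [hVne i j (by rw [Ne, Nat.pair_eq_pair]; tauto), mul_zero])]
        rw [tsum_eq_single i (fun i' hi' => by
          rw [hIne i' _ (by rw [Ne, Nat.pair_eq_pair]; tauto), mul_zero])]
        by_cases hj : jj i = j0
        · rw [hj, hI1, pow_add]; ring
        · rw [hIne i (jj i) (by rw [Ne, Nat.pair_eq_pair]; tauto),
            hVne i (jj i) (by rw [Ne, Nat.pair_eq_pair]; tauto)]
          ring
      · have h0 : ∀ j, ((1 / 2 : ℂ) ^ j) * V (Nat.pair i j) x = 0 := fun j => by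
          rw [hVne i j (by rw [Ne, Nat.pair_eq_pair]; tauto), mul_zero]
        simp only [h0, tsum_zero, zero_mul]
        rw [hVne i _ (by rw [Ne, Nat.pair_eq_pair]; tauto), mul_zero]
    · push Not at hx
      have h0 : ∀ k, V k x = 0 := fun k => hVsupp _ _ (hx k)
      simp only [h0, mul_zero, tsum_zero, zero_mul]
  -- the key inequality
  have hkey : ∀ i, (2 : ℝ) ^ (i + jj i) < A i * B + 1 := by
    intro i
    have h1 := S.t5 (a i) b
    rw [hab i] at h1
    have hdep : Dep (kk (lev (Nat.pair i (jj i))) (Rk (Nat.pair i (jj i))))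
        (fun x => (1 / 2 : ℂ) ^ (i + jj i) * V (Nat.pair i (jj i)) x) := by
      intro x y hxy
      simp only [hVdep _ x y hxy]
    have h2 := S.dep hdep
    have h3 : D.restr _ hdep.continuous = ((1 / 2 : ℂ) ^ (i + jj i)) • VE (Nat.pair i (jj i)) := by
      ext x; rfl
    rw [h3] at h2
    have h4 := (Q.of_NA ((hA i).mul hB)).add ((h1.sub h2) 1 one_pos)
    have h5 : D.Q (fun x => (1 / 2 : ℂ) ^ (i + jj i) * V (Nat.pair i (jj i)) x)
        (A i * B + 1) :=
      h4.congr isOpen_univ (Set.subset_univ _) fun x _ => by ring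
    have h6 := h5.smul ((2 : ℂ) ^ (i + jj i))
    have h7 : D.Q (V (Nat.pair i (jj i))) (2 ^ (i + jj i) * (A i * B + 1)) := by
      refine (h6.mono ?_).congr isOpen_univ (Set.subset_univ _) fun x _ => ?_
      · rw [norm_pow]; simp
      · rw [← mul_assoc, ← mul_pow]; norm_num
    by_contra hcon
    push Not at hcon
    apply hv5 (lev (Nat.pair i (jj i))) (Rk (Nat.pair i (jj i)))
    refine h7.mono ?_
    have h8 : Rk (Nat.pair i (jj i)) = 2 ^ (i + jj i) * 2 ^ (i + jj i) := by
      simp only [Rk, Nat.unpair_pair]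
      rw [← mul_pow]; norm_num
    rw [h8]
    gcongr
  have hA0 : ∀ i, 0 ≤ A i := fun i => (hA i).nonneg
  have hB0 : 0 ≤ B := hB.nonneg
  obtain ⟨i, hi⟩ := pow_unbounded_of_one_lt (B + 1) (by norm_num : (1 : ℝ) < 2)
  have h1 := hkey i
  have h2 : A i * B + 1 ≤ 2 ^ jj i * (B + 1) := by
    have h3 : (1 : ℝ) ≤ 2 ^ jj i := one_le_pow₀ (by norm_num)
    nlinarith [hjj i]
  have h3 : (2 : ℝ) ^ (i + jj i) = 2 ^ jj i * 2 ^ i := by rw [pow_add]; ring
  rw [h3] at h1
  have h4 : (0 : ℝ) < 2 ^ jj i := by positivity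
  nlinarith

end Data

end

end H959.Wed
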