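import Pool.Agent.H959R2.Wed.Constr

set_option autoImplicit false

open Function Finset

namespace H959.Wed

noncomputable section

/-- `f` is an absolutely convergent Walsh series of norm `≤ c` -/
def NA (f : G → ℂ) (c : ℝ) : Prop :=
  ∃ φ : Finset ℕ → ℂ, Summable (fun A => ‖φ A‖) ∧ ∑' A, ‖φ A‖ ≤ c ∧
    ∀ x, HasSum (fun A => φ A * (w A x : ℂ)) (f x)

lemma norm_w (A : Finset ℕ) (x : G) : ‖(w A x : ℂ)‖ = 1 := by
  rw [Complex.norm_real, Real.norm_eq_abs, abs_w]

lemma NA.nonneg {f : G → ℂ} {c : ℝ} (h : NA f c) : 0 ≤ c := by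
  obtain ⟨φ, h1, h2, h3⟩ := h
  exact (tsum_nonneg fun _ => norm_nonneg _).trans h2

lemma NA.mono {f : G → ℂ} {c d : ℝ} (h : NA f c) (hcd : c ≤ d) : NA f d := by
  obtain ⟨φ, h1, h2, h3⟩ := h
  exact ⟨φ, h1, h2.trans hcd, h3⟩

lemma NA.norm_le {f : G → ℂ} {c : ℝ} (h : NA f c) (x : G) : ‖f x‖ ≤ c := by
  obtain ⟨φ, h1, h2, h3⟩ := h
  rw [← (h3 x).tsum_eq]
  have e : (fun A => ‖φ A * (w A x : ℂ)‖) = fun A => ‖φ A‖ := by
    funext A; rw [norm_mul, norm_w, mul_one]
  refine (norm_tsum_le_tsum_norm (by rw [e]; exact h1)).trans ?_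
  rw [e]; exact h2

/-- general index sets -/
lemma NA.of_hasSum {ι : Type} {a : ι → ℂ} {c : ι → Finset ℕ} {f : G → ℂ} {C : ℝ}
    (h1 : Summable fun i => ‖a i‖) (h2 : ∑' i, ‖a i‖ ≤ C)
    (h3 : ∀ x, HasSum (fun i => a i * (w (c i) x : ℂ)) (f x)) : NA f C := by
  let e := Equiv.sigmaFiberEquiv c
  have hs : Summable fun p : (Σ A : Finset ℕ, {i // c i = A}) => ‖a (e p)‖ :=
    (e.summable_iff (f := fun i => ‖a i‖)).2 h1
  have hsf : ∀ A, Summable fun i : {i // c i = A} => ‖a i‖ := fun A => hs.sigma_factor A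
  have hs2 : Summable fun A => ∑' i : {i // c i = A}, ‖a i‖ := hs.sigma
  refine ⟨fun A => ∑' i : {i // c i = A}, a i, ?_, ?_, ?_⟩
  · refine Summable.of_nonneg_of_le (fun _ => norm_nonneg _) (fun A => ?_) hs2
    exact norm_tsum_le_tsum_norm (hsf A)
  · have h4 : ∑' A, ∑' i : {i // c i = A}, ‖a i‖ = ∑' i, ‖a i‖ := by
      rw [← e.tsum_eq (fun i => ‖a i‖)]
      exact (Summable.tsum_sigma hs).symm
    refine le_trans ?_ (h4.le.trans h2)
    refine Summable.tsum_le_tsum (fun A => norm_tsum_le_tsum_norm (hsf A)) ?_ hs2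
    exact Summable.of_nonneg_of_le (fun _ => norm_nonneg _)
      (fun A => norm_tsum_le_tsum_norm (hsf A)) hs2
  · intro x
    have h5 : HasSum (fun p : (Σ A : Finset ℕ, {i // c i = A}) =>
        a (e p) * (w (c (e p)) x : ℂ)) (f x) :=
      (e.hasSum_iff (f := fun i => a i * (w (c i) x : ℂ))).2 (h3 x)
    refine h5.sigma fun A => ?_
    have h6 : HasSum (fun i : {i // c i = A} => a i) (∑' i : {i // c i = A}, a i) :=
      (Summable.of_norm (hsf A)).hasSum
    have h7 := h6.mul_right (w A x : ℂ)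
    have h8 : (fun i : {i // c i = A} => a (e ⟨A, i⟩) * (w (c (e ⟨A, i⟩)) x : ℂ)) =
        fun i : {i // c i = A} => a i * (w A x : ℂ) := by
      funext i
      have : e ⟨A, i⟩ = i.1 := rfl
      rw [this, i.2]
    rw [h8]
    exact h7

lemma NA.zero : NA (fun _ => 0) 0 :=
  ⟨fun _ => 0, by simp [summable_zero], by simp, fun x => by simp [hasSum_zero]⟩

lemma NA.single (A : Finset ℕ) (c : ℂ) : NA (fun x => c * (w A x : ℂ)) ‖c‖ := by
  refine NA.of_hasSum (ι := Unit) (a := fun _ => c) (c := fun _ => A) (.of_finite) ?_ ?_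
  · simp
  · intro x
    simp

lemma NA.const (c : ℂ) : NA (fun _ => c) ‖c‖ := by
  simpa [w] using NA.single ∅ c

lemma NA.w (A : Finset ℕ) : NA (fun x => (w A x : ℂ)) 1 := by
  simpa using NA.single A 1

lemma NA.add {f g : G → ℂ} {a b : ℝ} (hf : NA f a) (hg : NA g b) :
    NA (fun x => f x + g x) (a + b) := by
  obtain ⟨φ, h1, h2, h3⟩ := hf
  obtain ⟨ψ, h4, h5, h6⟩ := hg
  have hs : Summable fun A => ‖φ A + ψ A‖ :=
    Summable.of_nonneg_of_le (fun _ => norm_nonneg _) (fun A => norm_add_le _ _) (h1.add h4)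
  refine ⟨fun A => φ A + ψ A, hs, ?_, fun x => ?_⟩
  · calc ∑' A, ‖φ A + ψ A‖ ≤ ∑' A, (‖φ A‖ + ‖ψ A‖) :=
          Summable.tsum_le_tsum (fun A => norm_add_le _ _) hs (h1.add h4)
      _ = ∑' A, ‖φ A‖ + ∑' A, ‖ψ A‖ := h1.tsum_add h4
      _ ≤ a + b := add_le_add h2 h5
  · have := (h3 x).add (h6 x)
    simpa only [add_mul] using this

lemma NA.smul {f : G → ℂ} {a : ℝ} (c : ℂ) (hf : NA f a) : NA (fun x => c * f x) (‖c‖ * a) := by
  obtain ⟨φ, h1, h2, h3⟩ := hf
  refine ⟨fun A => c * φ A, ?_, ?_, fun x => ?_⟩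
  · simpa only [norm_mul] using h1.mul_left ‖c‖
  · simp only [norm_mul]
    rw [tsum_mul_left]
    exact mul_le_mul_of_nonneg_left h2 (norm_nonneg _)
  · have := (h3 x).mul_left c
    simpa only [mul_assoc] using this

lemma NA.neg {f : G → ℂ} {a : ℝ} (hf : NA f a) : NA (fun x => - f x) a := by
  have := hf.smul (-1)
  simpa using this

lemma NA.sub {f g : G → ℂ} {a b : ℝ} (hf : NA f a) (hg : NA g b) :
    NA (fun x => f x - g x) (a + b) := by
  have := hf.add hg.neg
  simpa only [sub_eq_add_neg] using this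

lemma NA.mul {f g : G → ℂ} {a b : ℝ} (hf : NA f a) (hg : NA g b) :
    NA (fun x => f x * g x) (a * b) := by
  have ha := hf.nonneg
  obtain ⟨φ, h1, h2, h3⟩ := hf
  obtain ⟨ψ, h4, h5, h6⟩ := hg
  have hs : Summable fun p : Finset ℕ × Finset ℕ => ‖φ p.1 * ψ p.2‖ := by
    simp only [norm_mul]
    exact h1.mul_of_nonneg h4 (fun _ => norm_nonneg _) (fun _ => norm_nonneg _)
  refine NA.of_hasSum (ι := Finset ℕ × Finset ℕ) (a := fun p => φ p.1 * ψ p.2)
    (c := fun p => symmDiff p.1 p.2) hs ?_ ?_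
  · have : ∑' p : Finset ℕ × Finset ℕ, ‖φ p.1 * ψ p.2‖ = (∑' A, ‖φ A‖) * ∑' B, ‖ψ B‖ := by
      rw [h1.tsum_mul_tsum h4 (by simpa only [norm_mul] using hs)]
      simp only [norm_mul]
    rw [this]
    exact mul_le_mul h2 h5 (tsum_nonneg fun _ => norm_nonneg _) ha
  · intro x
    have h7 : Summable fun p : Finset ℕ × Finset ℕ =>
        (φ p.1 * (H959.Wed.w p.1 x : ℂ)) * (ψ p.2 * (H959.Wed.w p.2 x : ℂ)) := by
      refine Summable.of_norm ?_
      simpa only [norm_mul, norm_w, mul_one] using hs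
    have h8 := (h3 x).mul (h6 x) h7
    have h9 : (fun p : Finset ℕ × Finset ℕ =>
        φ p.1 * ψ p.2 * (H959.Wed.w (symmDiff p.1 p.2) x : ℂ)) = fun p =>
        (φ p.1 * (H959.Wed.w p.1 x : ℂ)) * (ψ p.2 * (H959.Wed.w p.2 x : ℂ)) := by
      funext p
      rw [← w_mul]
      push_cast
      ring
    rw [h9]
    exact h8

lemma NA.pow {f : G → ℂ} {a : ℝ} (hf : NA f a) (n : ℕ) : NA (fun x => f x ^ n) (a ^ n) := by
  induction n with
  | zero => simpa using NA.const 1
  | succ n ih =>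
    have := ih.mul hf
    simpa only [pow_succ] using this

lemma NA.sum {ι : Type*} (s : Finset ι) {f : ι → G → ℂ} {a : ι → ℝ}
    (h : ∀ i ∈ s, NA (f i) (a i)) : NA (fun x => ∑ i ∈ s, f i x) (∑ i ∈ s, a i) := by
  classical
  induction s using Finset.induction_on with
  | empty => simpa using NA.zero
  | insert i s hi ih =>
    have := (h i (Finset.mem_insert_self _ _)).add
      (ih fun j hj => h j (Finset.mem_insert_of_mem hj))
    simpa only [Finset.sum_insert hi] using this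

lemma NA.prod {ι : Type*} (s : Finset ι) {f : ι → G → ℂ} {a : ι → ℝ}
    (h : ∀ i ∈ s, NA (f i) (a i)) : NA (fun x => ∏ i ∈ s, f i x) (∏ i ∈ s, a i) := by
  classical
  induction s using Finset.induction_on with
  | empty => simpa using NA.const 1
  | insert i s hi ih =>
    have := (h i (Finset.mem_insert_self _ _)).mul
      (ih fun j hj => h j (Finset.mem_insert_of_mem hj))
    simpa only [Finset.prod_insert hi] using this

/-- infinite sums -/
lemma NA.tsum {f : ℕ → G → ℂ} {a : ℕ → ℝ} (h : ∀ n, NA (f n) (a n)) (ha : Summable a) :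
    ∃ g, NA g (∑' n, a n) ∧ ∀ x, HasSum (fun n => f n x) (g x) := by
  have ha0 : ∀ n, 0 ≤ a n := fun n => (h n).nonneg
  have hh := h
  choose φ h1 h2 h3 using h
  have hfs : ∀ x, Summable fun n => f n x := by
    intro x
    refine Summable.of_norm_bounded ha fun n => (hh n).norm_le x
  refine ⟨fun x => ∑' n, f n x, ?_, fun x => (hfs x).hasSum⟩
  have hs : Summable fun p : ℕ × Finset ℕ => ‖φ p.1 p.2‖ := by
    rw [summable_prod_of_nonneg (fun _ => norm_nonneg _)]
    refine ⟨h1, ?_⟩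
    exact Summable.of_nonneg_of_le (fun _ => tsum_nonneg fun _ => norm_nonneg _) h2 ha
  refine NA.of_hasSum (ι := ℕ × Finset ℕ) (a := fun p => φ p.1 p.2) (c := fun p => p.2) hs ?_ ?_
  · rw [hs.tsum_prod]
    refine Summable.tsum_le_tsum h2 ?_ ha
    exact Summable.of_nonneg_of_le (fun _ => tsum_nonneg fun _ => norm_nonneg _) h2 ha
  · intro x
    have h7 : Summable fun p : ℕ × Finset ℕ => φ p.1 p.2 * (H959.Wed.w p.2 x : ℂ) := by
      refine Summable.of_norm ?_
      simpa only [norm_mul, norm_w, mul_one] using hs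
    have h8 : ∑' p : ℕ × Finset ℕ, φ p.1 p.2 * (H959.Wed.w p.2 x : ℂ) = ∑' n, f n x := by
      rw [h7.tsum_prod]
      exact tsum_congr fun n => (h3 n x).tsum_eq
    rw [← h8]
    exact h7.hasSum

/-- cylinder indicator -/
def cyl (x : G) (n : ℕ) (y : G) : ℝ := ∏ i ∈ Finset.range n, ((1 + r i x * r i y) / 2)

lemma r_eq_iff {i : ℕ} {x y : G} : r i x = r i y ↔ x i = y i := by
  unfold r
  constructor
  · intro h
    have : ((x i : ℤ)) = (y i : ℤ) := by exact_mod_cast h
    exact Units.ext this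
  · intro h; rw [h]

lemma cyl_eq_one {x y : G} {n : ℕ} (h : ∀ i, i < n → x i = y i) : cyl x n y = 1 := by
  unfold cyl
  refine Finset.prod_eq_one fun i hi => ?_
  rw [Finset.mem_range] at hi
  have : r i y = r i x := r_eq_iff.2 (h i hi).symm
  rw [this, r_mul_self]
  norm_num

lemma cyl_eq_zero {x y : G} {n : ℕ} (h : ¬ ∀ i, i < n → x i = y i) : cyl x n y = 0 := by
  push Not at h
  obtain ⟨i, hi, hne⟩ := h
  unfold cyl
  refine Finset.prod_eq_zero (Finset.mem_range.2 hi) ?_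
  have h1 : r i x ≠ r i y := fun h => hne (r_eq_iff.1 h)
  have h2 : r i x * r i y = -1 := by
    have hx := r_mul_self i x
    have hy := r_mul_self i y
    have e1 : (r i x - r i y) * (r i x + r i y) = 0 := by linear_combination hx - hy
    rcases mul_eq_zero.1 e1 with e | e
    · exact absurd (sub_eq_zero.1 e) h1
    · linear_combination r i x * e - hx
  rw [h2]; norm_num

open Classical in
lemma cyl_eq (x : G) (n : ℕ) (y : G) : cyl x n y = if ∀ i, i < n → x i = y i then 1 else 0 := by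
  split_ifs with h
  · exact cyl_eq_one h
  · exact cyl_eq_zero h

lemma cyl_dep (x : G) (n : ℕ) : Dep n (cyl x n) := by
  intro y z hyz
  unfold cyl
  refine Finset.prod_congr rfl fun i hi => ?_
  rw [Finset.mem_range] at hi
  rw [r_eq_iff.2 (hyz i hi)]

lemma NA.cyl (x : G) (n : ℕ) : NA (fun y => (cyl x n y : ℂ)) 1 := by
  have h : ∀ i ∈ Finset.range n, NA (fun y => (((1 + r i x * r i y) / 2 : ℝ) : ℂ)) 1 := by
    intro i _
    have h1 := (NA.const (1 / 2)).add (NA.single {i} ((r i x / 2 : ℝ) : ℂ))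
    have h2 : (fun y => (((1 + r i x * r i y) / 2 : ℝ) : ℂ)) =
        fun y => (1 / 2 : ℂ) + ((r i x / 2 : ℝ) : ℂ) * (H959.Wed.w {i} y : ℂ) := by
      funext y
      simp only [H959.Wed.w, Finset.prod_singleton]
      push_cast
      ring
    rw [h2]
    refine h1.mono ?_
    rw [Complex.norm_real, Real.norm_eq_abs, abs_div, abs_r]
    norm_num
  have h3 := NA.prod (Finset.range n) h
  simp only [Finset.prod_const_one] at h3
  convert h3 using 2 with y
  unfold H959.Wed.cyl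
  push_cast
  rfl

/-- extension of finite words -/
def ext (n : ℕ) (y : Fin n → ℤˣ) : G := fun i => if h : i < n then y ⟨i, h⟩ else 1

lemma Dep.eq_sum {n : ℕ} {f : G → ℂ} (hf : Dep n f) (x : G) :
    f x = ∑ y : Fin n → ℤˣ, f (ext n y) * (cyl (ext n y) n x : ℂ) := by
  classical
  rw [Finset.sum_eq_single (fun i : Fin n => x i)]
  · have h1 : ∀ i, i < n → (ext n fun i => x i) i = x i := by
      intro i hi
      simp [ext, hi]
    rw [cyl_eq_one h1, hf _ x h1]
    simp
  · intro y _ hy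
    rw [cyl_eq_zero]
    · simp
    · intro h
      apply hy
      funext i
      have := h i i.2
      simpa [ext] using this
  · intro h; exact absurd (Finset.mem_univ _) h

lemma Dep.NA {n : ℕ} {f : G → ℂ} (hf : Dep n f) {c : ℝ} (hc : ∀ x, ‖f x‖ ≤ c) :
    NA f (2 ^ n * c) := by
  classical
  have h1 : ∀ y ∈ (Finset.univ : Finset (Fin n → ℤˣ)),
      H959.Wed.NA (fun x => f (ext n y) * (H959.Wed.cyl (ext n y) n x : ℂ)) c := by
    intro y _
    have := (NA.cyl (ext n y) n).smul (f (ext n y))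
    exact this.mono (by rw [mul_one]; exact hc _)
  have h2 := NA.sum Finset.univ h1
  simp only [Finset.sum_const, nsmul_eq_mul] at h2
  have h3 : (Finset.univ : Finset (Fin n → ℤˣ)).card = 2 ^ n := by
    simp [Finset.card_univ]
  rw [h3] at h2
  push_cast at h2
  convert h2 using 1
  funext x
  exact hf.eq_sum x

lemma NA.approx {f : G → ℂ} {c : ℝ} (hf : NA f c) {ε : ℝ} (hε : 0 < ε) :
    ∃ (n : ℕ) (p : G → ℂ), Dep n p ∧ NA (fun x => f x - p x) ε ∧ ∃ c', NA p c' := by
  classical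
  obtain ⟨φ, h1, h2, h3⟩ := hf
  have h4 := (tendsto_order.1 h1.hasSum).2
  obtain ⟨s, hs⟩ : ∃ s : Finset (Finset ℕ), ∑' A, ‖φ A‖ - ε < ∑ A ∈ s, ‖φ A‖ := by
    have := (tendsto_order.1 (h1.hasSum : Filter.Tendsto _ _ _)).1 (∑' A, ‖φ A‖ - ε) (by linarith)
    exact this.exists
  set n := (s.biUnion id).sup id + 1 with hn
  have hp : ∀ A ∈ s, ∀ i ∈ A, i < n := by
    intro A hA i hi
    have : i ∈ s.biUnion id := Finset.mem_biUnion.2 ⟨A, hA, hi⟩
    have : i ≤ (s.biUnion id).sup id := Finset.le_sup (f := id) this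
    omega
  refine ⟨n, fun x => ∑ A ∈ s, φ A * (H959.Wed.w A x : ℂ), ?_, ?_, ?_⟩
  · intro x y hxy
    refine Finset.sum_congr rfl fun A hA => ?_
    rw [w_dep (hp A hA) x y hxy]
  · refine ⟨fun A => if A ∈ s then 0 else φ A, ?_, ?_, ?_⟩
    · refine Summable.of_nonneg_of_le (fun _ => norm_nonneg _) (fun A => ?_) h1
      beta_reduce
      split_ifs <;> simp
    · have h5 : (fun A => ‖if A ∈ s then 0 else φ A‖) =
          fun A => ‖φ A‖ - (if A ∈ s then ‖φ A‖ else 0) := by
        funext A; split_ifs <;> simp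
      have h6 : HasSum (fun A => if A ∈ s then ‖φ A‖ else 0) (∑ A ∈ s, ‖φ A‖) := by
        have h7 : HasSum (fun A => if A ∈ s then ‖φ A‖ else 0)
            (∑ A ∈ s, if A ∈ s then ‖φ A‖ else 0) :=
          hasSum_sum_of_ne_finset_zero (fun A hA => by simp [hA])
        convert h7 using 1
        exact Finset.sum_congr rfl fun A hA => by simp [hA]
      rw [h5, (h1.hasSum.sub h6).tsum_eq]
      linarith
    · intro x
      have h6 : HasSum (fun A => if A ∈ s then φ A * (H959.Wed.w A x : ℂ) else 0)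
          (∑ A ∈ s, φ A * (H959.Wed.w A x : ℂ)) := by
        have h7 : HasSum (fun A => if A ∈ s then φ A * (H959.Wed.w A x : ℂ) else 0)
            (∑ A ∈ s, if A ∈ s then φ A * (H959.Wed.w A x : ℂ) else 0) :=
          hasSum_sum_of_ne_finset_zero (fun A hA => by simp [hA])
        convert h7 using 1
        exact Finset.sum_congr rfl fun A hA => by simp [hA]
      have h7 := (h3 x).sub h6
      have h8 : (fun A => (if A ∈ s then 0 else φ A) * (H959.Wed.w A x : ℂ)) = fun A =>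
          φ A * (H959.Wed.w A x : ℂ) - (if A ∈ s then φ A * (H959.Wed.w A x : ℂ) else 0) := by
        funext A
        split_ifs <;> simp
      rw [h8]
      exact h7
  · exact ⟨_, NA.sum s fun A _ => NA.single A (φ A)⟩

end

end H959.Wed
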