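import Pool.Agent.H959R2.Wed.SetE

set_option autoImplicit false

open Function Finset

namespace H959.Wed

noncomputable section

namespace Data

variable {D : Data}

lemma Q.mono {f : G → ℂ} {a b : ℝ} (h : D.Q f a) (hab : a ≤ b) : D.Q f b := by
  obtain ⟨g, h1, U, h2⟩ := h
  exact ⟨g, h1.mono hab, U, h2⟩

lemma Q.of_NA {f : G → ℂ} {a : ℝ} (h : NA f a) : D.Q f a :=
  ⟨f, h, Set.univ, isOpen_univ, Set.subset_univ _, fun _ _ => rfl⟩

lemma Q.congr {f f' : G → ℂ} {a : ℝ} (h : D.Q f a) {V : Set G} (hV : IsOpen V) (hEV : D.E ⊆ V)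
    (hff : ∀ x ∈ V, f' x = f x) : D.Q f' a := by
  obtain ⟨g, h1, U, hU, hEU, h2⟩ := h
  exact ⟨g, h1, U ∩ V, hU.inter hV, Set.subset_inter hEU hEV,
    fun x hx => (hff x hx.2).trans (h2 x hx.1)⟩

lemma Q.add {f g : G → ℂ} {a b : ℝ} (hf : D.Q f a) (hg : D.Q g b) :
    D.Q (fun x => f x + g x) (a + b) := by
  obtain ⟨f', h1, U, hU, hEU, h2⟩ := hf
  obtain ⟨g', h3, V, hV, hEV, h4⟩ := hg
  exact ⟨_, h1.add h3, U ∩ V, hU.inter hV, Set.subset_inter hEU hEV,
    fun x hx => by simp only [h2 x hx.1, h4 x hx.2]⟩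

lemma Q.mul {f g : G → ℂ} {a b : ℝ} (hf : D.Q f a) (hg : D.Q g b) :
    D.Q (fun x => f x * g x) (a * b) := by
  obtain ⟨f', h1, U, hU, hEU, h2⟩ := hf
  obtain ⟨g', h3, V, hV, hEV, h4⟩ := hg
  exact ⟨_, h1.mul h3, U ∩ V, hU.inter hV, Set.subset_inter hEU hEV,
    fun x hx => by simp only [h2 x hx.1, h4 x hx.2]⟩

lemma Q.smul {f : G → ℂ} {a : ℝ} (c : ℂ) (hf : D.Q f a) : D.Q (fun x => c * f x) (‖c‖ * a) := by
  obtain ⟨f', h1, U, hU, hEU, h2⟩ := hf
  exact ⟨_, h1.smul c, U, hU, hEU, fun x hx => by simp only [h2 x hx]⟩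

lemma J'.zero : D.J' (fun _ => 0) := fun _ hε => (Q.of_NA NA.zero).mono hε.le

lemma J'.congr {f f' : G → ℂ} (h : D.J' f) (hff : ∀ x, f' x = f x) : D.J' f' := by
  have : f' = f := funext hff
  rwa [this]

lemma J'.add {f g : G → ℂ} (hf : D.J' f) (hg : D.J' g) : D.J' (fun x => f x + g x) := by
  intro ε hε
  have := (hf (ε / 2) (by positivity)).add (hg (ε / 2) (by positivity))
  rwa [add_halves] at this

lemma J'.mul {f g : G → ℂ} {c : ℝ} (hf : D.J' f) (hg : NA g c) : D.J' (fun x => f x * g x) := by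
  intro ε hε
  have hc := hg.nonneg
  have := (hf (ε / (c + 1)) (by positivity)).mul (Q.of_NA hg)
  refine this.mono ?_
  rw [div_mul_eq_mul_div, div_le_iff₀ (by positivity)]
  nlinarith

lemma J'.smul {f : G → ℂ} (c : ℂ) (hf : D.J' f) : D.J' (fun x => c * f x) := by
  have := hf.mul (NA.const c)
  exact this.congr fun x => mul_comm _ _

lemma J'.neg {f : G → ℂ} (hf : D.J' f) : D.J' (fun x => - f x) :=
  (hf.smul (-1)).congr fun x => by ring

lemma J'.sub {f g : G → ℂ} (hf : D.J' f) (hg : D.J' g) : D.J' (fun x => f x - g x) :=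
  (hf.add hg.neg).congr fun x => by ring

/-- an element of the radical which is idempotent-like is zero -/
lemma rad {d : G → ℂ} {c : ℝ} (hd : NA d c) (hdE : ∀ x ∈ D.E, d x = 0)
    (hJ : D.J' (fun x => d x ^ 3 - d x)) : D.J' d := by
  classical
  -- `d ^ (2 m + 1) - d ∈ J`
  have h1 : ∀ m : ℕ, D.J' (fun x => d x ^ (2 * m + 1) - d x) := by
    intro m
    induction m with
    | zero => exact J'.zero.congr fun x => by ring
    | succ m ih =>
      have h2 := hJ.mul (hd.pow (2 * m))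
      exact (ih.add h2).congr fun x => by ring
  obtain ⟨n, p, hp, hdp, -⟩ := hd.approx (ε := 1 / 8) (by norm_num)
  set V : Set G := {x | ‖p x‖ ≤ 1 / 8} with hV
  have hVo : IsOpen V := hp.locConst {z | ‖z‖ ≤ 1 / 8}
  have hEV : D.E ⊆ V := by
    intro x hx
    have := hdp.norm_le x
    rw [hdE x hx, zero_sub, norm_neg] at this
    exact this
  set p1 : G → ℂ := fun x => if ‖p x‖ ≤ 1 / 8 then p x else 0 with hp1
  have hp1d : Dep n p1 := by
    intro x y hxy
    simp only [hp1]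
    rw [hp x y hxy]
  have hp1b : ∀ x, ‖p1 x‖ ≤ 1 / 8 := by
    intro x
    simp only [hp1]
    split_ifs with h
    · exact h
    · simp
  have hp1N : ∀ m : ℕ, NA (fun x => p1 x ^ m) (2 ^ n * (1 / 8) ^ m) := by
    intro m
    refine Dep.NA (n := n) (fun x y hxy => by simp only [hp1d x y hxy]) fun x => ?_
    rw [norm_pow]
    exact pow_le_pow_left₀ (norm_nonneg _) (hp1b x) m
  have hQ : ∀ N : ℕ, D.Q (fun x => d x ^ N) (2 ^ n * (1 / 4) ^ N) := by
    intro N
    have h2 : NA (fun x => (p1 x + (d x - p x)) ^ N) (2 ^ n * (1 / 4) ^ N) := by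
      have h3 : ∀ m ∈ Finset.range (N + 1),
          NA (fun x => p1 x ^ m * (d x - p x) ^ (N - m) * (N.choose m : ℂ))
            (2 ^ n * (1 / 8) ^ m * (1 / 8) ^ (N - m) * (N.choose m : ℝ)) := by
        intro m _
        have h4 := ((hp1N m).mul (hdp.pow (N - m))).mul (NA.const (N.choose m : ℂ))
        simpa using h4
      have h5 := NA.sum _ h3
      have e1 : (fun x => (p1 x + (d x - p x)) ^ N) = fun x => ∑ m ∈ Finset.range (N + 1),
          p1 x ^ m * (d x - p x) ^ (N - m) * (N.choose m : ℂ) := by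
        funext x; rw [add_pow]
      have e2 : (2 : ℝ) ^ n * (1 / 4) ^ N = ∑ m ∈ Finset.range (N + 1),
          2 ^ n * (1 / 8) ^ m * (1 / 8) ^ (N - m) * (N.choose m : ℝ) := by
        have : (1 / 4 : ℝ) = 1 / 8 + 1 / 8 := by norm_num
        rw [this, add_pow, Finset.mul_sum]
        exact Finset.sum_congr rfl fun m _ => by ring
      rw [e1, e2]
      exact h5
    refine (Q.of_NA h2).congr hVo hEV fun x hx => ?_
    have : p1 x = p x := if_pos hx
    rw [this]
    ring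
  intro ε hε
  have ht : Filter.Tendsto (fun m : ℕ => (2 : ℝ) ^ n * (1 / 4) ^ (2 * m + 1)) Filter.atTop
      (nhds 0) := by
    have h3 : Filter.Tendsto (fun m : ℕ => (1 / 4 : ℝ) ^ (2 * m + 1)) Filter.atTop (nhds 0) := by
      refine (tendsto_pow_atTop_nhds_zero_of_lt_one (by norm_num) (by norm_num)).comp ?_
      exact Filter.tendsto_atTop_mono (fun m => by omega : ∀ m : ℕ, m ≤ 2 * m + 1) Filter.tendsto_id
    simpa using h3.const_mul ((2 : ℝ) ^ n)
  obtain ⟨m, hm⟩ := ((tendsto_order.1 ht).2 (ε / 2) (by positivity)).exists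
  have h6 := ((hQ (2 * m + 1)).mono hm.le).add ((h1 m).neg (ε / 2) (by positivity))
  rw [add_halves] at h6
  refine h6.congr isOpen_univ (Set.subset_univ _) fun x _ => by ring

lemma idem_unique {f e : G → ℂ} {c c' : ℝ} (hf : NA f c) (he : NA e c')
    (hfe : ∀ x ∈ D.E, f x = e x) (hee : ∀ x, e x * e x = e x)
    (hff : D.J' (fun x => f x * f x - f x)) : D.J' (fun x => f x - e x) := by
  refine rad (hf.sub he) (fun x hx => by rw [hfe x hx, sub_self]) ?_
  have h1 := hff.mul ((hf.add (NA.const 1)).sub (he.smul 3))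
  refine h1.congr fun x => ?_
  linear_combination (3 * f x - e x - 1) * hee x

end Data

end

end H959.Wed
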