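import Pool.Agent.H959R2.Wed.Func

set_option autoImplicit false

open Function Finset

namespace H959.Wed

noncomputable section

lemma isOpen_cyl (x : G) (n : ℕ) : IsOpen {y : G | ∀ i, i < n → x i = y i} := by
  have : {y : G | ∀ i, i < n → x i = y i} = ⋂ i ∈ Finset.range n, (fun y : G => y i) ⁻¹' {x i} := by
    ext y
    simp [eq_comm]
  rw [this]
  exact isOpen_biInter_finset fun i _ => (isOpen_discrete _).preimage (continuous_apply i)

lemma exists_cyl_subset {U : Set G} (hU : IsOpen U) {x : G} (hx : x ∈ U) :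
    ∃ n, {y : G | ∀ i, i < n → x i = y i} ⊆ U := by
  obtain ⟨I, u, h1, h2⟩ := isOpen_pi_iff.1 hU x hx
  refine ⟨I.sup id + 1, fun y hy => h2 ?_⟩
  intro i hi
  have : i ≤ I.sup id := Finset.le_sup (f := id) hi
  have h3 := hy i (by omega)
  rw [← h3]
  exact (h1 i hi).2

lemma Dep.locConst {n : ℕ} {α : Type*} {f : G → α} (hf : Dep n f) : IsLocallyConstant f := by
  rw [IsLocallyConstant.iff_exists_open]
  intro x
  exact ⟨_, isOpen_cyl x n, fun i _ => rfl, fun y hy => (hf x y hy).symm⟩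

lemma Dep.continuous {n : ℕ} {α : Type*} [TopologicalSpace α] {f : G → α} (hf : Dep n f) :
    Continuous f := hf.locConst.continuous

lemma NA.continuous {f : G → ℂ} {c : ℝ} (hf : NA f c) : Continuous f := by
  obtain ⟨φ, h1, h2, h3⟩ := hf
  have : f = fun x => ∑' A, φ A * (H959.Wed.w A x : ℂ) := by
    funext x; exact (h3 x).tsum_eq.symm
  rw [this]
  refine continuous_tsum (fun A => ?_) h1 (fun A x => ?_)
  · have : Continuous (H959.Wed.w A) :=
      (w_dep (n := A.sup id + 1) fun i hi => by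
        have : i ≤ A.sup id := Finset.le_sup (f := id) hi
        omega).continuous
    fun_prop
  · rw [norm_mul, norm_w, mul_one]

namespace Data

variable (D : Data)

lemma isClosed_cond (j : ℕ) :
    IsClosed {x : G | |32 * F (D.M j) (D.N j) x - D.σ j x| ≤ 1 / 2} := by
  have h1 : Continuous (F (D.M j) (D.N j)) := (F_dep _ _).continuous
  have h2 : Continuous (D.σ j) := (D.hσ j).continuous
  exact isClosed_le (by fun_prop) continuous_const

lemma isClosed_Ek (k : ℕ) : IsClosed (D.Ek k) := by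
  have : D.Ek k = ⋂ j, ⋂ (_ : j < k), {x : G | |32 * F (D.M j) (D.N j) x - D.σ j x| ≤ 1 / 2} := by
    ext x; simp [Ek]
  rw [this]
  exact isClosed_iInter fun j => isClosed_iInter fun _ => D.isClosed_cond j

lemma isClosed_E : IsClosed D.E := by
  have : D.E = ⋂ j, {x : G | |32 * F (D.M j) (D.N j) x - D.σ j x| ≤ 1 / 2} := by
    ext x; simp [E]
  rw [this]
  exact isClosed_iInter fun j => D.isClosed_cond j

lemma isCompact_E : IsCompact D.E := D.isClosed_E.isCompact

instance : CompactSpace D.E := isCompact_iff_compactSpace.1 D.isCompact_E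

lemma Ek_succ (k : ℕ) : D.Ek (k + 1) ⊆ D.Ek k := fun _ hx j hj => hx j (by omega)

lemma Ek_anti {j k : ℕ} (h : j ≤ k) : D.Ek k ⊆ D.Ek j := fun _ hx i hi => hx i (by omega)

lemma exists_Ek_subset {U : Set G} (hU : IsOpen U) (hE : D.E ⊆ U) : ∃ k, D.Ek k ⊆ U := by
  by_contra hcon
  push Not at hcon
  have h1 : (⋂ k, (D.Ek k ∩ Uᶜ)).Nonempty := by
    apply IsCompact.nonempty_iInter_of_sequence_nonempty_isCompact_isClosed
    · intro k
      exact Set.inter_subset_inter_left _ (D.Ek_succ k)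
    · intro k
      obtain ⟨x, hx, hx'⟩ := Set.not_subset.1 (hcon k)
      exact ⟨x, hx, hx'⟩
    · exact ((D.isClosed_Ek 0).inter hU.isClosed_compl).isCompact
    · intro k
      exact (D.isClosed_Ek k).inter hU.isClosed_compl
  obtain ⟨x, hx⟩ := h1
  rw [Set.mem_iInter] at hx
  exact (hx 0).2 (hE fun k => (hx (k + 1)).1 k (by omega))

lemma NA_F (j : ℕ) : NA (fun x => ((F (D.M j) (D.N j) x : ℝ) : ℂ)) 1 := by
  have hNj : 0 < D.N j := by have := D.N1 j; omega
  have hNjR : (0 : ℝ) < D.N j := by exact_mod_cast hNj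
  have h1 : ∀ i ∈ Finset.Ico (D.M j) (D.M j + D.N j),
      NA (fun x => ((1 / D.N j : ℝ) : ℂ) * (w {i} x : ℂ)) (1 / D.N j) := by
    intro i _
    have := NA.single {i} ((1 / D.N j : ℝ) : ℂ)
    refine this.mono ?_
    rw [Complex.norm_real, Real.norm_eq_abs, abs_of_pos (by positivity)]
  have h2 := NA.sum _ h1
  rw [Finset.sum_const, Nat.card_Ico, Nat.add_sub_cancel_left, nsmul_eq_mul,
    mul_one_div_cancel hNjR.ne'] at h2
  convert h2 using 2 with x
  rw [← Finset.mul_sum]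
  unfold F
  push_cast
  simp [w]

/-- the set of finite patterns well approximated on `E` -/
def Good (n : ℕ) : Set ((Fin n → ℤˣ) → ℝ) :=
  {q | ∃ f : G → ℝ, NA (fun x => (f x : ℂ)) 32 ∧ ∀ x ∈ D.E, |f x - q (fun i => x i)| ≤ 1 / 2}

lemma good_sign (n : ℕ) (q : (Fin n → ℤˣ) → ℝ) (hq : ∀ y, q y = 1 ∨ q y = -1) : q ∈ D.Good n := by
  obtain ⟨k, -, hk⟩ := D.enum n (fun x => q fun i => x i) (by
    intro x y hxy
    have : (fun i : Fin n => x i) = fun i : Fin n => y i := by funext i; exact hxy i i.2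
    simp only [this]) (fun x => hq _) 0
  refine ⟨fun x => 32 * F (D.M k) (D.N k) x, ?_, fun x hx => ?_⟩
  · have := (D.NA_F k).smul 32
    convert this using 2
    · push_cast; ring
    · simp
  · have := hx k
    rw [hk] at this
    exact this

lemma convex_Good (n : ℕ) : Convex ℝ (D.Good n) := by
  rintro q ⟨f, hf1, hf2⟩ q' ⟨f', hf1', hf2'⟩ a b ha hb hab
  refine ⟨fun x => a * f x + b * f' x, ?_, fun x hx => ?_⟩
  · have := (hf1.smul (a : ℂ)).add (hf1'.smul (b : ℂ))
    have h2 : ‖(a : ℂ)‖ * 32 + ‖(b : ℂ)‖ * 32 = 32 := by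
      rw [Complex.norm_real, Complex.norm_real, Real.norm_eq_abs, Real.norm_eq_abs,
        abs_of_nonneg ha, abs_of_nonneg hb, ← add_mul, hab, one_mul]
    rw [h2] at this
    convert this using 2
    push_cast
    ring
  · simp only [Pi.add_apply, Pi.smul_apply, smul_eq_mul]
    have e : a * f x + b * f' x - (a * q (fun i => x i) + b * q' (fun i => x i)) =
      a * (f x - q (fun i => x i)) + b * (f' x - q' (fun i => x i)) := by ring
    rw [e]
    have h1 := hf2 x hx
    have h2 := hf2' x hx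
    calc |a * (f x - q fun i => x i) + b * (f' x - q' fun i => x i)|
        ≤ |a * (f x - q fun i => x i)| + |b * (f' x - q' fun i => x i)| := abs_add_le _ _
      _ = a * |f x - q fun i => x i| + b * |f' x - q' fun i => x i| := by
          rw [abs_mul, abs_mul, abs_of_nonneg ha, abs_of_nonneg hb]
      _ ≤ a * (1 / 2) + b * (1 / 2) := by gcongr
      _ = 1 / 2 := by rw [← add_mul, hab, one_mul]

lemma good_of_le (n : ℕ) (q : (Fin n → ℤˣ) → ℝ) (hq : ∀ y, |q y| ≤ 1) : q ∈ D.Good n := by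
  have h1 : q ∈ convexHull ℝ (Set.pi Set.univ fun _ : Fin n → ℤˣ => ({-1, 1} : Set ℝ)) := by
    rw [convexHull_pi]
    intro y _
    simp only
    rw [convexHull_pair, segment_eq_Icc (by norm_num)]
    exact abs_le.1 (hq y)
  refine convexHull_min ?_ (D.convex_Good n) h1
  intro q' hq'
  apply D.good_sign
  intro y
  have := hq' y (Set.mem_univ y)
  simp only [Set.mem_insert_iff, Set.mem_singleton_iff] at this
  tauto

/-- uniform approximation of continuous functions on `E` by locally constant functions -/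
lemma exists_dep_approx (g : C(D.E, ℝ)) {ε : ℝ} (hε : 0 < ε) :
    ∃ n, ∀ x y : D.E, (∀ i, i < n → x.1 i = y.1 i) → |g x - g y| ≤ ε := by
  have h1 : ∀ x : D.E, ∃ n, ∀ y : D.E, (∀ i, i < n → x.1 i = y.1 i) → |g x - g y| < ε / 2 := by
    intro x
    have h2 : IsOpen {y : D.E | |g x - g y| < ε / 2} :=
      isOpen_lt (by fun_prop) continuous_const
    obtain ⟨V, hV, hV2⟩ := isOpen_induced_iff.1 h2
    have hx : x.1 ∈ V := by
      have : x ∈ Subtype.val ⁻¹' V := by rw [hV2]; simp [hε]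
      exact this
    obtain ⟨n, hn⟩ := exists_cyl_subset hV hx
    refine ⟨n, fun y hy => ?_⟩
    have : y ∈ Subtype.val ⁻¹' V := hn hy
    rw [hV2] at this
    exact this
  choose m hm using h1
  obtain ⟨t, ht⟩ := D.isCompact_E.elim_finite_subcover
    (fun x : D.E => {y : G | ∀ i, i < m x → x.1 i = y i}) (fun x => isOpen_cyl _ _)
    (fun x hx => Set.mem_iUnion.2 ⟨⟨x, hx⟩, fun i _ => rfl⟩)
  refine ⟨t.sup m, fun x y hxy => ?_⟩
  have hx := ht x.2
  simp only [Set.mem_iUnion] at hx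
  obtain ⟨z, hz, hz2⟩ := hx
  have hzm : m z ≤ t.sup m := Finset.le_sup hz
  have h3 := hm z x hz2
  have h4 := hm z y fun i hi => (hz2 i hi).trans (hxy i (by omega))
  have h5 : g x - g y = (g z - g y) - (g z - g x) := by ring
  rw [h5]
  refine (abs_sub _ _).trans ?_
  linarith

lemma helson_step (g : C(D.E, ℝ)) : ∃ f : G → ℝ, NA (fun x => (f x : ℂ)) (32 * ‖g‖) ∧
    ∀ x : D.E, |g x - f x| ≤ 3 / 4 * ‖g‖ := by
  classical
  by_cases hg : ‖g‖ = 0
  · refine ⟨fun _ => 0, ?_, fun x => ?_⟩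
    · rw [hg]; simpa using NA.zero
    · have := g.norm_coe_le_norm x
      rw [hg] at this
      have h2 : g x = 0 := norm_le_zero_iff.1 this
      rw [hg, h2]; simp
  have hg0 : 0 < ‖g‖ := lt_of_le_of_ne (norm_nonneg _) (Ne.symm hg)
  obtain ⟨n, hn⟩ := D.exists_dep_approx g (ε := ‖g‖ / 16) (by positivity)
  let q : (Fin n → ℤˣ) → ℝ := fun y =>
    if h : ∃ x : D.E, (fun i : Fin n => x.1 i) = y then g h.choose / ‖g‖ else 0
  have hq : ∀ y, |q y| ≤ 1 := by
    intro y
    simp only [q]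
    split_ifs with h
    · rw [abs_div, abs_of_pos hg0, div_le_one hg0]
      exact g.norm_coe_le_norm _
    · simp
  obtain ⟨f, hf1, hf2⟩ := D.good_of_le n q hq
  refine ⟨fun x => ‖g‖ * f x, ?_, fun x => ?_⟩
  · have := hf1.smul (‖g‖ : ℂ)
    rw [Complex.norm_real, norm_norm, mul_comm ‖g‖ 32] at this
    convert this using 2
    push_cast
    ring
  · have h1 := hf2 x.1 x.2
    have h2 : ∃ x' : D.E, (fun i : Fin n => x'.1 i) = fun i : Fin n => x.1 i := ⟨x, rfl⟩
    have h3 : q (fun i : Fin n => x.1 i) = g h2.choose / ‖g‖ := by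
      simp only [q, dif_pos h2]
    rw [h3] at h1
    have h4 : |g h2.choose - g x| ≤ ‖g‖ / 16 := by
      apply hn
      intro i hi
      exact congrFun h2.choose_spec ⟨i, hi⟩
    have h5 : g x - ‖g‖ * f x = -(g h2.choose - g x) - ‖g‖ * (f x - g h2.choose / ‖g‖) := by
      field_simp
      ring
    rw [h5]
    refine (abs_sub _ _).trans ?_
    rw [abs_neg, abs_mul, abs_of_pos hg0]
    have : ‖g‖ * |f x - g h2.choose / ‖g‖| ≤ ‖g‖ * (1 / 2) := by gcongr
    linarith

/-- `E` is a Helson set (real functions, with norm control) -/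
lemma helson_real (g : C(D.E, ℝ)) : ∃ f : G → ℂ, NA f (128 * ‖g‖) ∧ ∀ x : D.E, f x = g x := by
  have hstep : ∀ g : C(D.E, ℝ), ∃ (f : G → ℝ) (g' : C(D.E, ℝ)), NA (fun x => (f x : ℂ)) (32 * ‖g‖) ∧
      (∀ x : D.E, g' x = g x - f x) ∧ ‖g'‖ ≤ 3 / 4 * ‖g‖ := by
    intro g
    obtain ⟨f, hf1, hf2⟩ := D.helson_step g
    have hc : Continuous f := by
      have := Complex.continuous_re.comp hf1.continuous
      exact this
    refine ⟨f, ⟨fun x => g x - f x, by fun_prop⟩, hf1, fun x => rfl, ?_⟩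
    rw [ContinuousMap.norm_le _ (by positivity)]
    intro x
    exact hf2 x
  choose Φ Ψ h1 h2 h3 using hstep
  let sq : ℕ → C(D.E, ℝ) := fun n => Nat.rec g (fun _ g => Ψ g) n
  have hsq0 : sq 0 = g := rfl
  have hsq : ∀ n, sq (n + 1) = Ψ (sq n) := fun n => rfl
  have hn : ∀ n, ‖sq n‖ ≤ (3 / 4) ^ n * ‖g‖ := by
    intro n
    induction n with
    | zero => simp [hsq0]
    | succ n ih =>
      rw [hsq]
      refine (h3 _).trans ?_
      rw [pow_succ]
      nlinarith
  have hNA : ∀ n, NA (fun x => (Φ (sq n) x : ℂ)) (32 * ((3 / 4) ^ n * ‖g‖)) := fun n =>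
    (h1 (sq n)).mono (by have := hn n; linarith)
  have hsum : HasSum (fun n : ℕ => 32 * ((3 / 4 : ℝ) ^ n * ‖g‖)) (128 * ‖g‖) := by
    have := (hasSum_geometric_of_lt_one (by norm_num : (0 : ℝ) ≤ 3 / 4) (by norm_num)).mul_right
      ‖g‖ |>.mul_left 32
    have e : (128 : ℝ) * ‖g‖ = 32 * ((1 - 3 / 4)⁻¹ * ‖g‖) := by norm_num; ring
    rw [e]
    exact this
  obtain ⟨f, hf1, hf2⟩ := NA.tsum hNA hsum.summable
  rw [hsum.tsum_eq] at hf1
  refine ⟨f, hf1, fun x => ?_⟩
  have hpart : ∀ n, ∑ i ∈ Finset.range n, ((Φ (sq i) x : ℝ) : ℂ) = ((g x - sq n x : ℝ) : ℂ) := by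
    intro n
    induction n with
    | zero => simp [hsq0]
    | succ n ih =>
      rw [Finset.sum_range_succ, ih, hsq, h2]
      push_cast
      ring
  have ht : Filter.Tendsto (fun n => ((g x - sq n x : ℝ) : ℂ)) Filter.atTop (nhds ((g x : ℝ) : ℂ)) := by
    have h4 : Filter.Tendsto (fun n => sq n x) Filter.atTop (nhds 0) := by
      have h5 : Filter.Tendsto (fun n : ℕ => (3 / 4 : ℝ) ^ n * ‖g‖) Filter.atTop (nhds 0) := by
        have := (tendsto_pow_atTop_nhds_zero_of_lt_one (by norm_num : (0 : ℝ) ≤ 3 / 4)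
          (by norm_num)).mul_const ‖g‖
        simpa using this
      exact squeeze_zero_norm (fun n => ((sq n).norm_coe_le_norm x).trans (hn n)) h5
    have h6 := (tendsto_const_nhds (x := g x)).sub h4
    rw [sub_zero] at h6
    exact (Complex.continuous_ofReal.tendsto _).comp h6
  have ht2 := (hf2 x).tendsto_sum_nat
  simp only [hpart] at ht2
  exact tendsto_nhds_unique ht2 ht

/-- `E` is a Helson set -/
lemma helson (u : C(D.E, ℂ)) : ∃ f : G → ℂ, (∃ c, NA f c) ∧ ∀ x : D.E, f x = u x := by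
  obtain ⟨f1, hf1, hf1'⟩ := D.helson_real ⟨fun x => (u x).re, by fun_prop⟩
  obtain ⟨f2, hf2, hf2'⟩ := D.helson_real ⟨fun x => (u x).im, by fun_prop⟩
  refine ⟨fun x => f1 x + Complex.I * f2 x, ⟨_, hf1.add (hf2.smul Complex.I)⟩, fun x => ?_⟩
  beta_reduce
  rw [hf1', hf2']
  simp only [ContinuousMap.coe_mk]
  rw [mul_comm]
  exact Complex.re_add_im (u x)

/-- the quotient seminorm on `A(G)/J_E` : `Q f c` means `q(f) ≤ c` -/
def Q (f : G → ℂ) (c : ℝ) : Prop :=
  ∃ g, NA g c ∧ ∃ U : Set G, IsOpen U ∧ D.E ⊆ U ∧ ∀ x ∈ U, f x = g x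

/-- membership in `J_E` (for functions in `A(G)`) -/
def J' (f : G → ℂ) : Prop := ∀ ε, 0 < ε → D.Q f ε

/-- `E` is not a set of synthesis -/
lemma non_synthesis : ∃ f : G → ℂ, (∃ c, NA f c) ∧ (∀ x ∈ D.E, f x = 0) ∧ ¬ D.J' f := by
  obtain ⟨j, hj, hσ⟩ := D.enum 0 (fun _ => 1) (Dep.const _) (fun x => Or.inl rfl) 100000
  have hF : ∀ x : D.E, 1 / 2 ≤ 32 * F (D.M j) (D.N j) x := by
    intro x
    have := x.2 j
    rw [hσ] at this
    have := (abs_le.1 this).1
    linarith
  have hFc : Continuous (F (D.M j) (D.N j)) := (F_dep _ _).continuous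
  obtain ⟨a, ha1, ha2⟩ := D.helson_real ⟨fun x => 1 / (32 * F (D.M j) (D.N j) x), by
    refine Continuous.div continuous_const (by fun_prop) fun x => ?_
    have := hF x
    linarith⟩
  have hn : ‖(⟨fun x => 1 / (32 * F (D.M j) (D.N j) x), by
    refine Continuous.div continuous_const (by fun_prop) fun x => ?_
    have := hF x
    linarith⟩ : C(D.E, ℝ))‖ ≤ 2 := by
    rw [ContinuousMap.norm_le _ (by norm_num)]
    intro x
    simp only [ContinuousMap.coe_mk]
    have := hF x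
    rw [Real.norm_eq_abs, abs_of_pos (by positivity), div_le_iff₀ (by linarith)]
    linarith
  have ha3 : NA a 256 := ha1.mono (by linarith)
  refine ⟨fun x => 1 - 32 * ((F (D.M j) (D.N j) x : ℝ) * a x), ?_, ?_, ?_⟩
  · exact ⟨_, (NA.const 1).sub (((D.NA_F j).mul ha3).smul 32)⟩
  · intro x hx
    have h1 := ha2 ⟨x, hx⟩
    simp only [ContinuousMap.coe_mk] at h1
    beta_reduce
    rw [h1]
    have := hF ⟨x, hx⟩
    simp only at this
    have h2 : (F (D.M j) (D.N j) x : ℝ) ≠ 0 := by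
      intro h; rw [h] at this; norm_num at this
    have h3 : ((F (D.M j) (D.N j) x : ℝ) : ℂ) ≠ 0 := by exact_mod_cast h2
    push_cast
    field_simp
    ring
  · intro hJ
    obtain ⟨g, hg1, U, hU, hEU, hg2⟩ := hJ (1 / 4) (by norm_num)
    obtain ⟨k0, hk0⟩ := D.exists_Ek_subset hU hEU
    set k := max k0 (j + 1) with hk
    have h1 : D.Lam k (fun x => 1 - 32 * ((F (D.M j) (D.N j) x : ℝ) * a x)) = D.Lam k g :=
      D.Lam_congr k fun x hx => hg2 x (hk0 (D.Ek_anti (le_max_left _ _) hx))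
    have h2 := D.norm_Lam_le k hg1
    have h3 : D.Lam k (fun x => 1 - 32 * ((F (D.M j) (D.N j) x : ℝ) * a x)) =
        1 - 32 * D.Lam k (fun x => (F (D.M j) (D.N j) x : ℝ) * a x) := by
      have e1 : (fun y => D.P k y • (1 - 32 * (((F (D.M j) (D.N j) y : ℝ) : ℂ) * a y))) =
          (fun y => D.P k y • (1 : ℂ)) +
          (-32 : ℝ) • (fun y => D.P k y • (((F (D.M j) (D.N j) y : ℝ) : ℂ) * a y)) := by
        funext y
        simp only [Pi.add_apply, Pi.smul_apply, Complex.real_smul]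
        push_cast
        ring
      have e2 := D.Lam_one k
      unfold Lam at e2 ⊢
      rw [e1, Tn_add, Tn_smul, Pi.add_apply, Pi.smul_apply, e2, Complex.real_smul]
      push_cast
      ring
    have h4 := D.norm_Lam_F_le (show j < k from lt_of_lt_of_le (Nat.lt_succ_self j)
      (le_max_right _ _)) ha3
    have h5 : (2 : ℝ) / (j + 1) * 256 ≤ 1 / 64 := by
      have : (100000 : ℝ) ≤ j := by exact_mod_cast hj
      rw [div_mul_eq_mul_div, div_le_iff₀ (by positivity)]
      linarith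
    rw [← h1, h3] at h2
    have h6 : (1 : ℝ) ≤ ‖(1 : ℂ) - 32 * D.Lam k (fun x => (F (D.M j) (D.N j) x : ℝ) * a x)‖ +
        ‖32 * D.Lam k (fun x => (F (D.M j) (D.N j) x : ℝ) * a x)‖ := by
      have := norm_add_le ((1 : ℂ) - 32 * D.Lam k (fun x => (F (D.M j) (D.N j) x : ℝ) * a x))
        (32 * D.Lam k (fun x => (F (D.M j) (D.N j) x : ℝ) * a x))
      rw [sub_add_cancel, norm_one] at this
      exact this
    rw [norm_mul] at h6
    have h7 : ‖(32 : ℂ)‖ = 32 := by simp
    rw [h7] at h6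
    have h8 := h4.trans h5
    linarith

end Data

end

end H959.Wed
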